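import Pool.Agent.H27.KB.W2

/-!
KAC ADE, growth part: existence of admissible multipartitions for general quivers.
-/

set_option autoImplicit false

namespace Pool.Agent.H27.KB

open scoped BigOperators
open Pool.Agent.H27.KAC Pool.H88.KA

variable {I : Type} [Fintype I] [DecidableEq I]

theorem Adm_exists' (a : I → I → ℕ) (α : I →₀ ℕ) (hα : AmpG a α) (v : I → ℕ)
    (hv : ∀ i, cw a α i = 0 → 1 ≤ ∑ j, cart a i j * (v j : ℤ)) (K : ℕ)
    (hK : 2 ≤ K) : ∃ N0 : ℕ, ∀ n : ℕ, N0 ≤ n → ∃ m : Fin K → I → ℕ, Adm a (n • α) m := by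
  classical
  refine ⟨K * ∑ i, v i + 1 + K * ∑ i, ∑ j, a i j * v j, fun n hn => ?_⟩
  have hge : ∀ i, K * v i + 1 ≤ n * α i := fun i => by
    have h1 : v i ≤ ∑ i, v i :=
      Finset.single_le_sum (f := v) (fun _ _ => Nat.zero_le _) (Finset.mem_univ i)
    have h2 : K * v i ≤ K * ∑ i, v i := Nat.mul_le_mul_left _ h1
    have h3 : n ≤ n * α i := Nat.le_mul_of_pos_right _ (hα.supp i)
    omega
  obtain ⟨K', rfl⟩ : ∃ K', K = K' + 2 := ⟨K - 2, by omega⟩
  set m : Fin (K' + 2) → I → ℕ := fun k i =>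
    if (k : ℕ) = 0 then n * α i - (K' + 2) * v i
    else if (k : ℕ) = K' + 1 then v i else 0 with hm
  have hm0 : ∀ (k : Fin (K' + 2)) (i : I), (k : ℕ) = 0 →
      m k i = n * α i - (K' + 2) * v i := by
    intro k i hk
    simp only [hm]
    rw [if_pos hk]
  have hmK : ∀ (k : Fin (K' + 2)) (i : I), (k : ℕ) = K' + 1 → m k i = v i := by
    intro k i hk
    simp only [hm]
    rw [if_neg (by omega), if_pos hk]
  have hmo : ∀ (k : Fin (K' + 2)) (i : I), (k : ℕ) ≠ 0 → (k : ℕ) ≠ K' + 1 → m k i = 0 := by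
    intro k i h1 h2
    simp only [hm]
    rw [if_neg h1, if_neg h2]
  have hlast : (((Fin.last K').succ : Fin (K' + 2)) : ℕ) = K' + 1 := by simp
  have hmid : ∀ k : Fin K', ((k.castSucc.succ : Fin (K' + 2)) : ℕ) = k + 1 := by
    intro k
    simp
  have hmem : m ∈ Mset (K' + 2) (n • α : I →₀ ℕ) := by
    apply KG2_mem_Mset
    intro i
    rw [Finsupp.smul_apply, smul_eq_mul, Fin.sum_univ_succ, Fin.sum_univ_castSucc]
    have h1 : ∑ k : Fin K', (((k.castSucc.succ : Fin (K' + 2)) : ℕ) + 1) *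
        m k.castSucc.succ i = 0 := by
      refine Finset.sum_eq_zero fun k _ => ?_
      have hk := k.2
      have e1 := hmid k
      rw [hmo _ _ (by omega) (by omega), mul_zero]
    rw [h1, zero_add, hm0 0 i (Fin.val_zero _), hmK _ i hlast, hlast, Fin.val_zero]
    have h3 := hge i
    have h4 : (K' + 1 + 1) * v i = (K' + 2) * v i := by ring
    omega
  refine ⟨m, hmem, ?_, ?_⟩
  · intro i
    unfold mAt
    rw [dif_pos ⟨le_refl 1, by omega⟩]
    have h3 := hge i
    rw [hm0 _ i (by simp)]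
    omega
  · intro l hl1 hlK i
    rw [PLF_eq a (n • α) m hmem l i]
    have hin : ∀ j, ∑ l' : Fin (K' + 2), (((l' : ℕ) + 1 - l : ℕ) : ℤ) * (m l' j : ℤ) =
        ((K' + 2 - l : ℕ) : ℤ) * v j := by
      intro j
      rw [Fin.sum_univ_succ, Fin.sum_univ_castSucc]
      have h1 : ∑ k : Fin K', (((((k.castSucc.succ : Fin (K' + 2)) : ℕ) + 1 - l : ℕ) : ℤ) *
          (m k.castSucc.succ j : ℤ)) = 0 := by
        refine Finset.sum_eq_zero fun k _ => ?_
        have hk := k.2
        have e1 := hmid k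
        rw [hmo _ _ (by omega) (by omega), Nat.cast_zero, mul_zero]
      have h3 : ((((0 : Fin (K' + 2)) : ℕ) + 1 - l : ℕ) : ℤ) = 0 := by
        rw [Fin.val_zero]
        have : 0 + 1 - l = 0 := by omega
        rw [this, Nat.cast_zero]
      rw [h1, h3, zero_mul, zero_add, zero_add, hmK _ j hlast, hlast]
    simp only [hin]
    rw [KG2_cw_nsmul]
    set D : ℤ := ((K' + 2 - l : ℕ) : ℤ) with hD
    have hD1 : 1 ≤ D := by
      rw [hD]
      have : 1 ≤ K' + 2 - l := by omega
      exact_mod_cast this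
    have hD2 : D ≤ (K' + 2 : ℤ) := by
      rw [hD]
      have : K' + 2 - l ≤ K' + 2 := Nat.sub_le _ _
      exact_mod_cast this
    have h0 : ∑ j, cart a i j * (D * (v j : ℤ)) = D * ∑ j, cart a i j * (v j : ℤ) := by
      rw [Finset.mul_sum]
      exact Finset.sum_congr rfl fun j _ => by ring
    rw [h0]
    by_cases hi : cw a α i = 0
    · rw [hi]
      have h1 := hv i hi
      have h2 : D * 1 ≤ D * ∑ j, cart a i j * (v j : ℤ) :=
        mul_le_mul_of_nonneg_left h1 (by linarith)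
      linarith
    · have hs1 : 1 ≤ -cw a α i := by
        have h1 := AmpG.snn hα i
        omega
      have h1 : -(∑ j, ((a i j * v j : ℕ) : ℤ)) ≤ ∑ j, cart a i j * (v j : ℤ) := by
        rw [← Finset.sum_neg_distrib]
        apply Finset.sum_le_sum
        intro j _
        unfold cart
        have h5 : (0 : ℤ) ≤ (v j : ℤ) := by positivity
        split_ifs
        · push_cast
          nlinarith
        · push_cast
          nlinarith
      have h2 : (∑ j, a i j * v j) ≤ ∑ i, ∑ j, a i j * v j :=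
        Finset.single_le_sum (f := fun i => ∑ j, a i j * v j) (fun _ _ => Nat.zero_le _)
          (Finset.mem_univ i)
      have hX : (∑ j, ((a i j * v j : ℕ) : ℤ)) = ((∑ j, a i j * v j : ℕ) : ℤ) := by push_cast; rfl
      rw [hX] at h1
      have h3 : (K' + 2) * (∑ j, a i j * v j) + 1 ≤ n := by
        have := Nat.mul_le_mul_left (K' + 2) h2
        omega
      have h3' : ((K' : ℤ) + 2) * ((∑ j, a i j * v j : ℕ) : ℤ) + 1 ≤ n := by exact_mod_cast h3
      have h4 : (n : ℤ) * 1 ≤ (n : ℤ) * (-cw a α i) :=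
        mul_le_mul_of_nonneg_left hs1 (Int.natCast_nonneg _)
      have h6 : -((n : ℤ) * cw a α i) = (n : ℤ) * (-cw a α i) := by ring
      have h7 : D * (-((∑ j, a i j * v j : ℕ) : ℤ)) ≤ D * ∑ j, cart a i j * (v j : ℤ) :=
        mul_le_mul_of_nonneg_left h1 (by linarith)
      have h8 : D * ((∑ j, a i j * v j : ℕ) : ℤ) ≤ ((K' : ℤ) + 2) * ((∑ j, a i j * v j : ℕ) : ℤ) :=
        mul_le_mul_of_nonneg_right hD2 (Int.natCast_nonneg _)
      rw [h6]
      linarith

end Pool.Agent.H27.KB
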