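import Pool.Agent.H27.KB.A1

/-!
KAC ADE: what the engine has to provide (nonnegativity and the lower bound), and first consequences.
-/

set_option autoImplicit false

namespace Pool.Agent.H27.KB

open scoped BigOperators
open Pool.Agent.H27.KAC Pool.H88.KA

variable {I : Type} [Fintype I] [DecidableEq I]

/-- the output of the engine for the connected matrix `a`. -/
structure Eng (a : I → I → ℕ) : Prop where
  symm : ∀ i j, a i j = a j i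
  diag : ∀ i, a i i ≠ 1
  conn : Conn a
  nonneg : ∀ f : (I → ℕ) → ℚ, KacData a f → ∀ α : I →₀ ℕ, AmpG a α → 0 ≤ f α
  low : ∀ f : (I → ℕ) → ℚ, KacData a f → ∀ α : I →₀ ℕ, AmpG a α → ∀ K : ℕ, 2 ≤ K →
    ∃ C : ℕ, 1 ≤ C ∧ ∀ n : ℕ, 1 ≤ n → ∀ m : Fin K → I → ℕ, Adm a (n • α) m →
      (EW a m : ℝ) ≤ ((C : ℝ) * n) ^ C * ((f (n • α) : ℚ) : ℝ)

theorem Adm_existsE (a : I → I → ℕ) (hg : Eng a) (α : I →₀ ℕ) (hα : AmpG a α) (K : ℕ)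
    (hK : 2 ≤ K) : ∃ N0 : ℕ, ∀ n : ℕ, N0 ≤ n → ∃ m : Fin K → I → ℕ, Adm a (n • α) m := by
  obtain ⟨v, hv⟩ := exists_v a hg.symm hg.diag hg.conn α hα
  exact Adm_exists' a α hα v hv K hK

theorem windowE (a : I → I → ℕ) (hg : Eng a) (α : I →₀ ℕ) (hα : AmpG a α)
    (q : ℕ) (hq : 1 ≤ q) (L0 : ℕ) (hL0 : 1 ≤ L0) :
    ∃ n0 T : ℕ, ∀ n : ℕ, n0 ≤ n → ∀ (K : ℕ) (m : Fin K → I → ℕ), m ∈ Mset K (n • α) →
      (∀ (k : Fin K) (i : I), 0 ≤ PLF a m ((k : ℕ) + 1) i + ((k : ℤ) + 1) * 2) →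
      ∃ L κ n' : ℕ, L0 ≤ L ∧ 2 ≤ κ ∧ 1 ≤ n' ∧ n' ≤ n + n / q + T ∧
        ∃ m' : Fin κ → I → ℕ, Adm a (n' • α) m' ∧
          (∏ l ∈ Finset.Icc 1 L, ∏ i,
            ((PLF a m l i + 2 * (l : ℤ)).toNat + mAt m l i).choose (mAt m l i)) ≤ EW a m' := by
  obtain ⟨v, hv⟩ := exists_v a hg.symm hg.diag hg.conn α hα
  exact window' a α hα v hv q hq L0 hL0

end Pool.Agent.H27.KB
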