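import Pool.Agent.H27.KB.H12a
import Pool.Agent.H27.KAC.KH17

/-!
KAC ADE, growth part: nonnegativity of all values and the limit along the rays of the fundamental cone, from the
output of the engine.
-/

set_option autoImplicit false

namespace Pool.Agent.H27.KB

open scoped BigOperators
open Pool.Agent.H27.KAC Pool.H88.KA
open Filter Topology

/-- the output of the engine for all connected matrices. -/
def AllEng : Prop :=
  ∀ (I : Type) [Fintype I] [DecidableEq I] (a : I → I → ℕ), Nonempty I → (∀ i j, a i j = a j i) →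
    (∀ i, a i i ≠ 1) → Conn a → Eng a

variable {I E : Type} [Fintype I] [DecidableEq I] [Fintype E]

theorem AllEng.res (hE : AllEng) (Q : Quiv I E) (S : Finset I) (hne : Nonempty {i // i ∈ S})
    (hc : Conn (resM (adj Q) S)) : Eng (resM (adj Q) S) := by
  refine hE _ _ hne (fun i j => adj_comm Q i j) (fun i => ?_) hc
  show adj Q i i ≠ 1
  rw [adj_self]
  omega

theorem leaf_or (Q : Quiv I E) (α : I → ℕ) (S : Finset I) (hS : ∀ i, i ∈ S ↔ α i ≠ 0)
    (hconn : Conn (resM (adj Q) S))
    (hneg : ∀ i, adj Q i i = 0 → α i ≠ 0 → 0 ≤ sw (adj Q) α i)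
    (hall : ¬ ∀ i ∈ S, sw (adj Q) α i = 0) : AmpG (resM (adj Q) S) (rV α S) := by
  have hS' : ∀ i, α i ≠ 0 → i ∈ S := fun i hi => (hS i).2 hi
  push Not at hall
  obtain ⟨x, hx, hxs⟩ := hall
  -- the support is not one vertex with one loop
  have hloop : ∀ i ∈ S, adj Q i i ≠ 0 → 0 < sw (adj Q) α i := by
    intro i hi hai
    have hai2 : 2 ≤ adj Q i i := by
      obtain ⟨r, hr⟩ := adj_even Q i
      omega
    by_contra hcon
    have hsw := sw_eq (adj Q) α i
    rw [← Finset.add_sum_erase _ _ (Finset.mem_univ i)] at hsw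
    have h3 : ∀ j ∈ Finset.univ.erase i, (0:ℤ) ≤ (adj Q i j : ℤ) * (α j : ℤ) :=
      fun j _ => by positivity
    have h3' := Finset.sum_nonneg h3
    have hαi : (1:ℤ) ≤ α i := by
      have := Nat.pos_of_ne_zero ((hS i).1 hi)
      exact_mod_cast this
    have hai2' : (2:ℤ) ≤ adj Q i i := by exact_mod_cast hai2
    have h4 : (adj Q i i : ℤ) = 2 := by nlinarith
    have h5 : ∑ j ∈ Finset.univ.erase i, (adj Q i j : ℤ) * (α j : ℤ) = 0 := by
      rw [h4] at hsw
      linarith
    have h6 := (Finset.sum_eq_zero_iff_of_nonneg h3).1 h5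
    -- hence S = {i}
    have h7 : ∀ j ∈ S, j = i := by
      by_contra hc'
      push Not at hc'
      obtain ⟨j0, hj0, hj0i⟩ := hc'
      obtain ⟨u, hu, w, hw, huw⟩ := hconn {⟨i, hi⟩} (Finset.singleton_nonempty _)
        (fun hcon' => by
          have h8 : (⟨j0, hj0⟩ : {i // i ∈ S}) ∈ ({⟨i, hi⟩} : Finset {i // i ∈ S}) := by
            rw [hcon']
            exact Finset.mem_univ _
          rw [Finset.mem_singleton] at h8
          exact hj0i (congrArg Subtype.val h8))
      rw [Finset.mem_singleton] at hu hw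
      have hwi : (w : I) ≠ i := fun h => hw (Subtype.ext h)
      have h9 := h6 w (Finset.mem_erase.2 ⟨hwi, Finset.mem_univ _⟩)
      rw [hu] at huw
      have h10 : 0 < adj Q i w := huw
      have h11 : 0 < α w := Nat.pos_of_ne_zero ((hS w).1 w.2)
      rcases mul_eq_zero.1 h9 with h12 | h12
      · have : adj Q i w = 0 := by exact_mod_cast h12
        omega
      · have : α w = 0 := by exact_mod_cast h12
        omega
    apply hxs
    rw [h7 x hx]
    rw [hsw, h4, h5]
    ring
  have hpos : ∀ i ∈ S, 0 ≤ sw (adj Q) α i := by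
    intro i hi
    by_cases hai : adj Q i i = 0
    · exact hneg i hai ((hS i).1 hi)
    · exact (hloop i hi hai).le
  refine ⟨fun i => ?_, fun i _ => ?_, fun i hi => ?_, ⟨⟨x, hx⟩, ?_⟩⟩
  · rw [rV_apply]
    exact Nat.pos_of_ne_zero ((hS i).1 i.2)
  · rw [cw_rV _ _ _ hS', neg_neg]
    exact hpos i i.2
  · rw [cw_rV _ _ _ hS', neg_neg]
    exact hloop i i.2 hi
  · rw [cw_rV _ _ _ hS', neg_neg]
    exact lt_of_le_of_ne (hpos x hx) (Ne.symm hxs)

theorem f_nonnegE (Q : Quiv I E) (hE : AllEng) (β : I → ℕ) :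
    0 ≤ fOf (kacOne Q) β := by
  by_cases hβ : ∃ i, β i ≠ 0
  swap
  · push Not at hβ
    rw [fOf_kac_zero _ β hβ]
  obtain ⟨g, α, hg1, hα, hβα⟩ := exists_prim β hβ
  have hfun : β = fun i => g * α i := funext hβα
  rw [hfun]
  have hP : ∀ N : ℕ, 1 ≤ N →
      0 ≤ ∑ k ∈ N.divisors, (fun N : ℕ => kacOne Q (fun i => N * α i)) (N / k) / (k : ℚ) ^ 2 := by
    apply kac_induct' Q (fun A => ∀ N : ℕ, 1 ≤ N →
      0 ≤ ∑ k ∈ N.divisors, A (N / k) / (k : ℚ) ^ 2) _ _ _ _ _ α hα
    · intro A hA N hN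
      apply Finset.sum_nonneg
      intro k hk
      have h1 : 1 ≤ N / k := Nat.div_pos (Nat.divisor_le hk) (Nat.pos_of_mem_divisors hk)
      rw [hA _ h1, zero_div]
    · intro A hA1 hA2 N hN
      apply Finset.sum_nonneg
      intro k hk
      have h1 : 1 ≤ N / k := Nat.div_pos (Nat.divisor_le hk) (Nat.pos_of_mem_divisors hk)
      apply div_nonneg _ (by positivity)
      rcases Nat.eq_or_lt_of_le h1 with h2 | h2
      · rw [← h2, hA1]
        exact zero_le_one
      · rw [hA2 _ h2]
    · intro c A _ hA N hN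
      apply Finset.sum_nonneg
      intro k hk
      have h1 : 1 ≤ N / k := Nat.div_pos (Nat.divisor_le hk) (Nat.pos_of_mem_divisors hk)
      rw [hA _ h1]
      positivity
    · intro A B hAB hA N hN
      have h2 := hA N hN
      rwa [Finset.sum_congr rfl (fun k hk => by
        rw [hAB _ (Nat.div_pos (Nat.divisor_le hk) (Nat.pos_of_mem_divisors hk))])] at h2
    · intro α S hS hα hconn hne hamp N hN
      have hS' : ∀ i, α i ≠ 0 → i ∈ S := fun i hi => (hS i).2 hi
      have h1 := (hE.res Q S hne hconn).nonneg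
        (fun β => fOf (kacOne Q) (ext0 S β)) ((kacData_kac Q).restrict S)
        (N • rV α S) (AmpG.nsmul hamp N hN)
      have h2 : ext0 S ((N • rV α S : {i // i ∈ S} →₀ ℕ) : {i // i ∈ S} → ℕ) =
          fun i => N * α i := ext0_rV α S hS' N
      have h3 : 0 ≤ fOf (kacOne Q) (fun i => N * α i) := by
        rw [← h2]
        exact h1
      rw [fOf_prim _ α hα N hN] at h3
      exact h3
  rw [fOf_prim _ α hα g hg1]
  exact hP g hg1

/-- the limit along a ray. -/
theorem kac_limitE (Q : Quiv I E) (hE : AllEng) (β : I → ℕ)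
    (hβ : ∀ᶠ n : ℕ in atTop, 0 < kacOne Q (fun i => n * β i)) :
    ∃ l : ℝ, Tendsto (fun n : ℕ => Real.log ((kacOne Q (fun i => n * β i) : ℚ) : ℝ) / n)
      atTop (𝓝 l) := by
  by_cases hβ0 : ∃ i, β i ≠ 0
  swap
  · push Not at hβ0
    obtain ⟨n, hn⟩ := hβ.exists
    have h0 : (fun i => n * β i) = (0 : I → ℕ) := by
      funext i
      rw [hβ0 i, mul_zero]
      rfl
    rw [h0, kacOne_zero] at hn
    exact absurd hn (lt_irrefl _)
  obtain ⟨g, α, hg1, hα, hβα⟩ := exists_prim β hβ0
  have hfun : ∀ n : ℕ, (fun i => n * β i) = fun i => (n * g) * α i := by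
    intro n
    funext i
    rw [hβα i, mul_assoc]
  simp only [hfun] at hβ ⊢
  have hconst : ∀ c : ℝ, Tendsto (fun n : ℕ => c / (n : ℝ)) atTop (𝓝 0) := fun c =>
    tendsto_const_div_atTop_nhds_zero_nat c
  have key : (∀ᶠ n : ℕ in atTop, 0 < (fun N : ℕ => kacOne Q (fun i => N * α i)) (n * g)) →
      ∃ l : ℝ, Tendsto (fun n : ℕ =>
        Real.log (((fun N : ℕ => kacOne Q (fun i => N * α i)) (n * g) : ℚ) : ℝ) / n)
      atTop (𝓝 l) := by
    apply kac_induct' Q (fun A => (∀ᶠ n : ℕ in atTop, 0 < A (n * g)) →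
      ∃ l : ℝ, Tendsto (fun n : ℕ => Real.log ((A (n * g) : ℚ) : ℝ) / n) atTop (𝓝 l))
      _ _ _ _ _ α hα
    · intro A hA hpos
      obtain ⟨n, hn, hn1⟩ := (hpos.and (eventually_ge_atTop 1)).exists
      rw [hA _ (Nat.mul_pos hn1 hg1)] at hn
      exact absurd hn (lt_irrefl _)
    · intro A hA1 hA hpos
      obtain ⟨n, hn, hn1⟩ := (hpos.and (eventually_ge_atTop 2)).exists
      rw [hA _ (by calc 2 = 2 * 1 := rfl
        _ ≤ n * g := Nat.mul_le_mul hn1 hg1)] at hn
      exact absurd hn (lt_irrefl _)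
    · intro c A hc1 hA _
      refine ⟨0, (hconst (Real.log c)).congr' ?_⟩
      filter_upwards [eventually_ge_atTop 1] with n hn
      rw [hA _ (Nat.mul_pos hn hg1)]
      norm_num
    · intro A B hAB hA hpos
      have h1 : ∀ᶠ n : ℕ in atTop, 0 < A (n * g) := by
        filter_upwards [hpos, eventually_ge_atTop 1] with n hn hn1
        rw [hAB _ (Nat.mul_pos hn1 hg1)]
        exact hn
      obtain ⟨l, hl⟩ := hA h1
      refine ⟨l, hl.congr' ?_⟩
      filter_upwards [eventually_ge_atTop 1] with n hn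
      rw [hAB _ (Nat.mul_pos hn hg1)]
    · intro α S hS hα hconn hne hamp hpos
      have hS' : ∀ i, α i ≠ 0 → i ∈ S := fun i hi => (hS i).2 hi
      obtain ⟨l, hl0, hFpos, hFlim⟩ := growth_AmpleE (resM (adj Q) S) (hE.res Q S hne hconn) hconn hne
        (fun β => fOf (kacOne Q) (ext0 S β)) ((kacData_kac Q).restrict S)
        (fun β => f_nonnegE Q hE _) (rV α S) hamp
      have hext : ∀ n : ℕ, fOf (kacOne Q) (ext0 S (fun i => n * rV α S i)) =
          fOf (kacOne Q) (fun i => n * α i) := by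
        intro n
        rw [ext0_rV α S hS' n]
      simp only [hext] at hFpos hFlim
      refine ⟨g * l, limit_A_of_F (fun N => ((kacOne Q (fun i => N * α i) : ℚ) : ℝ))
        (fun N => ((fOf (kacOne Q) (fun i => N * α i) : ℚ) : ℝ)) ?_ ?_ ?_ l hl0 ?_ hFlim g hg1 ?_⟩
      · intro N hN
        have h1 := fOf_prim_sq (kacOne Q) α hα N hN
        have h2 := congrArg (fun x : ℚ => (x : ℝ)) h1
        push_cast at h2
        exact h2
      · intro N
        show (0 : ℝ) ≤ ((fOf (kacOne Q) (fun i => N * α i) : ℚ) : ℝ)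
        exact_mod_cast f_nonnegE Q hE (fun i => N * α i)
      · intro N
        obtain ⟨z, hz⟩ := kacOne_int Q (fun i => N * α i)
        refine ⟨z, ?_⟩
        show ((kacOne Q (fun i => N * α i) : ℚ) : ℝ) = z
        rw [hz]
        push_cast
        rfl
      · filter_upwards [hFpos] with n hn
        exact_mod_cast hn
      · filter_upwards [hpos] with n hn
        exact_mod_cast hn
  exact key hβ

end Pool.Agent.H27.KB
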