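import Pool.Agent.H27.KB.F1

/-!
KAC ADE, growth part: the growth rate on the fundamental cone, and the final theorem from the output of the engine.
-/

set_option autoImplicit false

namespace Pool.Agent.H27.KB

open scoped BigOperators
open Pool.Agent.H27.KAC Pool.H88.KA
open Filter Topology Polynomial

section

variable {I E : Type} [Fintype I] [DecidableEq I] [Fintype E]

theorem kac_limit_PhiE (Q : Quiv I E) (hE : AllEng) (β : I → ℕ)
    (hK : ∀ i, 0 ≤ sw (adj Q) β i)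
    (hβ : ∀ᶠ n : ℕ in atTop, 0 < kacOne Q (fun i => n * β i)) :
    Tendsto (fun n : ℕ => Real.log ((kacOne Q (fun i => n * β i) : ℚ) : ℝ) / n)
      atTop (𝓝 (PhiR (adj Q) (fun i => (β i : ℝ)))) := by
  by_cases hβ0 : ∃ i, β i ≠ 0
  swap
  · push Not at hβ0
    obtain ⟨n, hn⟩ := hβ.exists
    have h0 : (fun i => n * β i) = (0 : I → ℕ) := by
      funext i
      rw [hβ0 i, mul_zero]
      rfl
    rw [h0, kacOne_zero] at hn
    exact absurd hn (lt_irrefl _)
  obtain ⟨g, α, hg1, hα, hβα⟩ := exists_prim β hβ0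
  have hfun : ∀ n : ℕ, (fun i => n * β i) = fun i => (n * g) * α i := by
    intro n
    funext i
    rw [hβα i, mul_assoc]
  have hg1' : (0 : ℤ) < g := by exact_mod_cast hg1
  have hKα : ∀ i, 0 ≤ sw (adj Q) α i := by
    intro i
    have h1 := hK i
    have h2 : β = fun i => g * α i := funext hβα
    rw [h2, sw_smul] at h1
    exact nonneg_of_mul_nonneg_right h1 hg1'
  have hkon : Kon (adj Q) (fun i => (α i : ℝ)) := by
    refine ⟨fun i => Nat.cast_nonneg _, fun i => ?_⟩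
    rw [KH12_cR]
    have : (0 : ℝ) ≤ ((sw (adj Q) α i : ℤ) : ℝ) := by exact_mod_cast hKα i
    linarith
  have hphi : PhiR (adj Q) (fun i => (β i : ℝ)) = g * PhiR (adj Q) (fun i => (α i : ℝ)) := by
    have h1 : (fun i => (β i : ℝ)) = (g : ℝ) • (fun i => (α i : ℝ)) := by
      funext i
      rw [Pi.smul_apply, smul_eq_mul, hβα i]
      push_cast
      rfl
    rw [h1, PhiR_smul hkon (Nat.cast_nonneg g)]
  rw [hphi]
  simp only [hfun] at hβ ⊢
  obtain ⟨S, hS⟩ : ∃ S : Finset I, ∀ i, i ∈ S ↔ α i ≠ 0 :=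
    ⟨Finset.univ.filter (fun i => α i ≠ 0), fun i => by simp⟩
  obtain ⟨i0, hi0⟩ := hα.exists_ne
  have hne : Nonempty {i // i ∈ S} := ⟨⟨i0, (hS i0).2 hi0⟩⟩
  have hS' : ∀ i, α i ≠ 0 → i ∈ S := fun i hi => (hS i).2 hi
  by_cases hconn : Conn (resM (adj Q) S)
  swap
  · -- disconnected support
    exfalso
    obtain ⟨n, hn, hn1⟩ := (hβ.and (eventually_ge_atTop 1)).exists
    have hN : 1 ≤ n * g := Nat.mul_pos hn1 hg1
    obtain ⟨N, hNN⟩ : ∃ N, N = n * g := ⟨_, rfl⟩
    rw [← hNN] at hn hN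
    have h0 : kacOne Q (fun i => N * α i) = 0 := by
      unfold Conn at hconn
      push Not at hconn
      obtain ⟨U, hU1, hU2, hU3⟩ := hconn
      apply kac_disconnected Q (fun i => N * α i)
        (fun i => ∃ h : i ∈ S, (⟨i, h⟩ : {i // i ∈ S}) ∈ U)
      · obtain ⟨u, hu⟩ := hU1
        refine ⟨u, ⟨u.2, hu⟩, ?_⟩
        exact Nat.mul_ne_zero (by omega) ((hS u).1 u.2)
      · obtain ⟨v, hv⟩ : ∃ v, v ∉ U := by
          by_contra hcon
          push Not at hcon
          exact hU2 (Finset.eq_univ_of_forall hcon)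
        refine ⟨v, ?_, ?_⟩
        · rintro ⟨h1, h2⟩
          exact hv h2
        · exact Nat.mul_ne_zero (by omega) ((hS v).1 v.2)
      · rintro i j ⟨hi, hi'⟩ hj hai haj
        have hj1 : j ∈ S := by
          rw [hS]
          intro h0
          exact haj (by rw [h0, mul_zero])
        have hj2 : (⟨j, hj1⟩ : {i // i ∈ S}) ∉ U := fun hcon => hj ⟨hj1, hcon⟩
        have := hU3 ⟨i, hi⟩ hi' ⟨j, hj1⟩ hj2
        exact Nat.le_zero.1 this
    rw [h0] at hn
    exact lt_irrefl _ hn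
  have hconst : ∀ c : ℝ, Tendsto (fun n : ℕ => c / (n : ℝ)) atTop (𝓝 0) := fun c =>
    tendsto_const_div_atTop_nhds_zero_nat c
  by_cases hall : ∀ i ∈ S, sw (adj Q) α i = 0
  swap
  · have hamp := leaf_or Q α S hS hconn (fun i _ _ => hKα i) hall
    obtain ⟨hl0, hFpos, hFlim⟩ := growth_Ample_hsupE (resM (adj Q) S) (hE.res Q S hne hconn) hne
      (fun β => fOf (kacOne Q) (ext0 S β)) ((kacData_kac Q).restrict S)
      (fun β => f_nonnegE Q hE _) (rV α S) hamp
    have hext : ∀ n : ℕ, fOf (kacOne Q) (ext0 S (fun i => n * rV α S i)) =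
        fOf (kacOne Q) (fun i => n * α i) := by
      intro n
      rw [ext0_rV α S hS' n]
    simp only [hext] at hFpos hFlim
    have hval : hsup (resM (adj Q) S) (rV α S) = PhiR (adj Q) (fun i => (α i : ℝ)) := by
      rw [← PhiR_restrict (adj Q) S (fun i => (α i : ℝ)) (fun i hi => by
        by_contra hc
        exact hi (hS' i (fun h0 => hc (by simp only [h0, Nat.cast_zero]))))]
      exact le_antisymm (hsup_le_PhiRE _ (hE.res Q S hne hconn) _ hamp)
        (PhiR_le_hsupE _ (hE.res Q S hne hconn) _ hamp)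
    rw [← hval]
    refine limit_A_of_F (fun N => ((kacOne Q (fun i => N * α i) : ℚ) : ℝ))
      (fun N => ((fOf (kacOne Q) (fun i => N * α i) : ℚ) : ℝ)) ?_ ?_ ?_ _ hl0 ?_ hFlim g hg1 ?_
    · intro N hN
      have h1 := fOf_prim_sq (kacOne Q) α hα N hN
      have h2 := congrArg (fun x : ℚ => (x : ℝ)) h1
      push_cast at h2
      exact h2
    · intro N
      show (0 : ℝ) ≤ ((fOf (kacOne Q) (fun i => N * α i) : ℚ) : ℝ)
      exact_mod_cast f_nonnegE Q hE (fun i => N * α i)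
    · intro N
      obtain ⟨z, hz⟩ := kacOne_int Q (fun i => N * α i)
      refine ⟨z, ?_⟩
      show ((kacOne Q (fun i => N * α i) : ℚ) : ℝ) = z
      rw [hz]
      push_cast
      rfl
    · filter_upwards [hFpos] with n hn
      exact_mod_cast hn
    · filter_upwards [hβ] with n hn
      exact_mod_cast hn
  · -- isotropic
    have h0 : PhiR (adj Q) (fun i => (α i : ℝ)) = 0 := by
      refine PhiR_isotropic (adj Q) (adj_comm Q) _ hkon fun l hl => ?_
      have hl1 : α l ≠ 0 := by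
        intro hc
        simp only [hc, Nat.cast_zero, lt_irrefl] at hl
      rw [KH12_cR, hall l ((hS l).2 hl1)]
      simp
    rw [h0, mul_zero]
    refine (hconst (Real.log (S.card : ℝ))).congr' ?_
    filter_upwards [eventually_ge_atTop 1] with n hn
    have hN : 1 ≤ n * g := Nat.mul_pos hn hg1
    rw [kac_affine Q α S hS hα hconn hall (n * g) hN]
    norm_num

theorem GrQ_descentE (Q : Quiv I E) (hE : AllEng) (x : I → ℝ) (v : ℝ) (h : GrQ Q x v) :
    ∃ x' : I → ℝ, Kon (adj Q) x' ∧ (∀ i, x' i ≤ x i) ∧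
      ∑ i, x i * cR (adj Q) x i = ∑ i, x' i * cR (adj Q) x' i ∧ v = PhiR (adj Q) x' := by
  obtain ⟨β, t, l, ht, hβ, hl, hx, hv⟩ := h
  obtain ⟨β', h1, h2, h3, h4⟩ := kac_descent Q β hβ
  have hβ' : ∀ᶠ n : ℕ in atTop, 0 < kacOne Q (fun i => n * β' i) := by
    filter_upwards [hβ, eventually_ge_atTop 1] with n hn hn1
    rw [h1 n hn1]
    exact hn
  have hlim := kac_limit_PhiE Q hE β' h3 hβ'
  have hlim2 : Tendsto (fun n : ℕ => Real.log ((kacOne Q (fun i => n * β' i) : ℚ) : ℝ) / n)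
      atTop (𝓝 l) := by
    refine hl.congr' ?_
    filter_upwards [eventually_ge_atTop 1] with n hn
    rw [h1 n hn]
  have hl2 := tendsto_nhds_unique hlim2 hlim
  have hkon : Kon (adj Q) (fun i => (β' i : ℝ)) := by
    refine ⟨fun i => Nat.cast_nonneg _, fun i => ?_⟩
    rw [KH12_cR]
    have : (0 : ℝ) ≤ ((sw (adj Q) β' i : ℤ) : ℝ) := by exact_mod_cast h3 i
    linarith
  have hform : ∀ (γ : I → ℕ), ∑ i, (t • (fun i => (γ i : ℝ))) i *
      cR (adj Q) (t • (fun i => (γ i : ℝ))) i =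
      t * t * (((-∑ i, (γ i : ℤ) * sw (adj Q) γ i : ℤ)) : ℝ) := by
    intro γ
    push_cast
    rw [← Finset.sum_neg_distrib, Finset.mul_sum]
    refine Finset.sum_congr rfl fun i _ => ?_
    rw [cR_smul, KH12_cR, Pi.smul_apply, smul_eq_mul]
    ring
  have hxx : x = t • (fun i => (β i : ℝ)) := by
    funext i
    rw [hx i, Pi.smul_apply, smul_eq_mul]
  refine ⟨t • (fun i => (β' i : ℝ)), hkon.smul ht.le, fun i => ?_, ?_, ?_⟩
  · rw [hx i, Pi.smul_apply, smul_eq_mul]
    refine mul_le_mul_of_nonneg_left ?_ ht.le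
    exact_mod_cast h2 i
  · rw [hxx, hform β, hform β', h4]
  · rw [PhiR_smul hkon ht.le, hv, hl2]

end

theorem kac_growth_all (hE : AllEng) {I E : Type} [Finite I] [Finite E] (Q : Quiv I E) :
    ∃ p : (I → ℕ) → ℚ[X], (∀ α, IsKacPoly Q α (p α)) ∧
      ∃ F : (I → ℝ) → ℝ, Continuous F ∧ (∀ (t : ℝ) (x : I → ℝ), 0 ≤ t → F (t • x) = t * F x) ∧
        ∀ α : I → ℕ, (∀ᶠ n : ℕ in atTop, 0 < (p (fun i => n * α i)).eval 1) →
        Tendsto (fun n : ℕ => Real.log (((p (fun i => n * α i)).eval 1 : ℚ) : ℝ) / n) atTop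
          (𝓝 (F (fun i => (α i : ℝ)))) := by
  classical
  have := Fintype.ofFinite I
  have := Fintype.ofFinite E
  choose p hp using fun α => kacPoly_exists Q α
  refine ⟨p, hp, ?_⟩
  have h1 : ∀ α, kacOne Q α = (p α).eval 1 := fun α => kacOne_eq Q α (p α) (hp α)
  obtain ⟨F, hF, hF1, hF2⟩ := homog_ext (GrQ Q)
    (by
      rintro x v t ht ⟨β, s, l, hs, hβ, hl, hx, hv⟩
      refine ⟨β, t * s, l, mul_pos ht hs, hβ, hl, fun i => ?_, ?_⟩
      · rw [Pi.smul_apply, smul_eq_mul, hx i, mul_assoc]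
      · rw [hv, mul_assoc])
    (fun ξ ε hε => local_all (adj Q) (adj_comm Q) (fun i hi => by
        have h2 := adj_self Q i
        omega) (GrQ Q) (fun x v h => GrQ_descentE Q hE x v h)
        (fun x v h i hi => GrQ_refl Q x v h i hi) ξ ε hε)
  refine ⟨F, hF, hF1, fun α hα => ?_⟩
  have hα' : ∀ᶠ n : ℕ in atTop, 0 < kacOne Q (fun i => n * α i) := by
    filter_upwards [hα] with n hn
    rw [h1]
    exact hn
  obtain ⟨l, hl⟩ := kac_limitE Q hE α hα'
  have h2 : F (fun i => (α i : ℝ)) = l :=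
    hF2 _ _ ⟨α, 1, l, one_pos, hα', hl, fun i => (one_mul _).symm, (one_mul _).symm⟩
  rw [h2]
  simpa only [h1] using hl

end Pool.Agent.H27.KB
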