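import Pool.Agent.H27.KAC.KG4
import Pool.Agent.H27.KAC.KH4
import Pool.Agent.H88.KA.AF5

/-!
KAC ADE, growth part: the auxiliary vector `v` and the window lemma for general quivers.
-/

set_option autoImplicit false

namespace Pool.Agent.H27.KB

open scoped BigOperators
open Pool.Agent.H27.KAC Pool.H88.KA Filter Topology

variable {I : Type} [Fintype I] [DecidableEq I]

theorem AmpG.snn {a : I → I → ℕ} {α : I →₀ ℕ} (h : AmpG a α) (i : I) : 0 ≤ -cw a α i := by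
  by_cases h0 : a i i = 0
  · exact h.pos i h0
  · exact (h.posl i h0).le

theorem AmpG.nsmul {a : I → I → ℕ} {α : I →₀ ℕ} (h : AmpG a α) (n : ℕ) (hn : 1 ≤ n) :
    AmpG a (n • α) := by
  have hn' : (0 : ℤ) < n := by exact_mod_cast hn
  refine ⟨fun i => ?_, fun i hi => ?_, fun i hi => ?_, ?_⟩
  · rw [Finsupp.smul_apply, smul_eq_mul]
    exact Nat.mul_pos hn (h.supp i)
  · rw [KG2_cw_nsmul, ← mul_neg]
    exact mul_nonneg hn'.le (h.pos i hi)
  · rw [KG2_cw_nsmul, ← mul_neg]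
    exact mul_pos hn' (h.posl i hi)
  · obtain ⟨i, hi⟩ := h.ex
    refine ⟨i, ?_⟩
    rw [KG2_cw_nsmul, ← mul_neg]
    exact mul_pos hn' hi

theorem cR_cast (a : I → I → ℕ) (α : I →₀ ℕ) (i : I) :
    cR a (fun j => (α j : ℝ)) i = ((cw a α i : ℤ) : ℝ) := by
  unfold cR cw
  push_cast
  rfl

/-- the auxiliary vector. -/
theorem exists_v (a : I → I → ℕ) (hs : ∀ i j, a i j = a j i) (hd : ∀ i, a i i ≠ 1)
    (hc : Conn a) (α : I →₀ ℕ) (hα : AmpG a α) :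
    ∃ v : I → ℕ, ∀ i, cw a α i = 0 → 1 ≤ ∑ j, cart a i j * (v j : ℤ) := by
  classical
  have hy : Kon a (fun i => (α i : ℝ)) := by
    refine ⟨fun i => Nat.cast_nonneg _, fun i => ?_⟩
    rw [cR_cast]
    have h1 := AmpG.snn hα i
    have h2 : cw a α i ≤ 0 := by linarith
    exact_mod_cast h2
  obtain ⟨D, u, hD⟩ := strict_exists a hs hd _ hy
  have hypos : ∀ i, (0 : ℝ) < (α i : ℝ) := fun i => by exact_mod_cast hα.supp i
  have hDe : D = ∅ := by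
    by_contra hne
    have hDne : D.Nonempty := Finset.nonempty_iff_ne_empty.2 hne
    by_cases hDu : D = Finset.univ
    · obtain ⟨i, hi⟩ := hα.ex
      have h1 := hD.Dzero i (by rw [hDu]; exact Finset.mem_univ i)
      rw [cR_cast] at h1
      have h2 : cw a α i = 0 := by exact_mod_cast h1
      rw [h2] at hi
      simp at hi
    · obtain ⟨i, hi, j, hj, hij⟩ := hc D hDne hDu
      have := hD.Dsep i hi j hj (hypos j)
      omega
  have hup : ∀ i, cw a α i = 0 → 0 < cR a u i := by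
    intro i hi
    refine hD.upos i (by rw [hDe]; simp) (hypos i) ?_
    rw [cR_cast, hi]
    simp
  -- a large multiple
  set B : Finset I := Finset.univ.filter (fun i => cw a α i = 0) with hB
  have hex : ∃ N : ℕ, ∀ i, cw a α i = 0 → (∑ j, |((cart a i j : ℤ) : ℝ)|) < N * cR a u i := by
    have h1 : ∀ i : I, ∃ N : ℕ, ∀ N' : ℕ, N ≤ N' → cw a α i = 0 →
        (∑ j, |((cart a i j : ℤ) : ℝ)|) < N' * cR a u i := by
      intro i
      by_cases hi : cw a α i = 0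
      · obtain ⟨N, hN⟩ := exists_nat_gt ((∑ j, |((cart a i j : ℤ) : ℝ)|) / cR a u i)
        refine ⟨N, fun N' hN' _ => ?_⟩
        have h2 := hup i hi
        rw [div_lt_iff₀ h2] at hN
        have h3 : (N : ℝ) ≤ N' := by exact_mod_cast hN'
        nlinarith
      · exact ⟨0, fun _ _ h => absurd h hi⟩
    choose N hN using h1
    refine ⟨∑ i, N i, fun i hi => hN i _ ?_ hi⟩
    exact Finset.single_le_sum (f := N) (fun _ _ => Nat.zero_le _) (Finset.mem_univ i)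
  obtain ⟨N, hN⟩ := hex
  refine ⟨fun j => ⌊(N : ℝ) * u j⌋₊, fun i hi => ?_⟩
  have h1 := hN i hi
  have h2 : (0 : ℝ) < ∑ j, ((cart a i j : ℤ) : ℝ) * ((⌊(N : ℝ) * u j⌋₊ : ℕ) : ℝ) := by
    have h3 : (N : ℝ) * cR a u i - ∑ j, |((cart a i j : ℤ) : ℝ)| ≤
        ∑ j, ((cart a i j : ℤ) : ℝ) * ((⌊(N : ℝ) * u j⌋₊ : ℕ) : ℝ) := by
      unfold cR
      rw [Finset.mul_sum, ← Finset.sum_sub_distrib]
      refine Finset.sum_le_sum fun j _ => ?_
      have h4 : (0 : ℝ) ≤ (N : ℝ) * u j := mul_nonneg (Nat.cast_nonneg _) (hD.unn j)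
      have h5 := Nat.floor_le h4
      have h6 := Nat.lt_floor_add_one ((N : ℝ) * u j)
      have h7 : |((N : ℝ) * u j) - ((⌊(N : ℝ) * u j⌋₊ : ℕ) : ℝ)| ≤ 1 := by
        rw [abs_le]
        constructor <;> linarith
      have h8 : ((cart a i j : ℤ) : ℝ) * (((N : ℝ) * u j) - ((⌊(N : ℝ) * u j⌋₊ : ℕ) : ℝ)) ≤
          |((cart a i j : ℤ) : ℝ)| := by
        refine (le_abs_self _).trans ?_
        rw [abs_mul]
        exact mul_le_of_le_one_right (abs_nonneg _) h7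
      nlinarith
    linarith
  have h3 : (0 : ℤ) < ∑ j, cart a i j * ((⌊(N : ℝ) * u j⌋₊ : ℕ) : ℤ) := by
    have h4 : (((∑ j, cart a i j * ((⌊(N : ℝ) * u j⌋₊ : ℕ) : ℤ)) : ℤ) : ℝ) =
        ∑ j, ((cart a i j : ℤ) : ℝ) * ((⌊(N : ℝ) * u j⌋₊ : ℕ) : ℝ) := by
      push_cast
      rfl
    rw [← h4] at h2
    exact_mod_cast h2
  exact h3

/-- main term. -/
theorem KG2_main' (a : I → I → ℕ) (α : I →₀ ℕ) (hα : AmpG a α) (v : I → ℕ)
    (hv : ∀ i, cw a α i = 0 → 1 ≤ ∑ j, cart a i j * (v j : ℤ))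
    (Θ : ℕ) (i : I) (hΘ : 2 * ∑ j, a i j * v j + 1 ≤ Θ)
    (k κ e u : ℕ) (hk : 2 * k ≤ κ) :
    ((κ * e * u : ℕ) : ℤ) ≤ (Θ * (κ * e) * u : ℕ) * (-cw a α i) +
      ∑ j, cart a i j * (((κ : ℤ) - k) * ((2 * (e * u * v j) : ℕ) : ℤ)) := by
  have hkκ : (0 : ℤ) ≤ (κ : ℤ) - k := by
    have : (2 : ℤ) * k ≤ κ := by exact_mod_cast hk
    have : (0 : ℤ) ≤ k := by positivity
    linarith
  have hk2 : (κ : ℤ) ≤ 2 * ((κ : ℤ) - k) := by
    have : (2 : ℤ) * k ≤ κ := by exact_mod_cast hk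
    linarith
  have hsum : ∑ j, cart a i j * (((κ : ℤ) - k) * ((2 * (e * u * v j) : ℕ) : ℤ)) =
      (2 * ((κ : ℤ) - k)) * ((e : ℤ) * u) * ∑ j, cart a i j * (v j : ℤ) := by
    rw [Finset.mul_sum]
    refine Finset.sum_congr rfl fun j _ => ?_
    push_cast
    ring
  rw [hsum]
  have heu : (0 : ℤ) ≤ (e : ℤ) * u := by positivity
  by_cases hB : cw a α i = 0
  · rw [hB]
    have h1 := hv i hB
    have h2 : (κ : ℤ) * ((e : ℤ) * u) ≤ 2 * ((κ : ℤ) - k) * ((e : ℤ) * u) :=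
      mul_le_mul_of_nonneg_right hk2 heu
    have h3 : 0 ≤ 2 * ((κ : ℤ) - k) * ((e : ℤ) * u) := by positivity
    have h4 : 2 * ((κ : ℤ) - k) * ((e : ℤ) * u) * 1 ≤
        2 * ((κ : ℤ) - k) * ((e : ℤ) * u) * ∑ j, cart a i j * (v j : ℤ) :=
      mul_le_mul_of_nonneg_left h1 h3
    push_cast
    nlinarith
  · have hs : (1 : ℤ) ≤ -cw a α i := by
      have h1 := AmpG.snn hα i
      omega
    have h1 : -(∑ j, ((a i j * v j : ℕ) : ℤ)) ≤ ∑ j, cart a i j * (v j : ℤ) := by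
      rw [← Finset.sum_neg_distrib]
      apply Finset.sum_le_sum
      intro j _
      unfold cart
      have h5 : (0 : ℤ) ≤ (v j : ℤ) := by positivity
      split_ifs
      · push_cast
        nlinarith
      · push_cast
        nlinarith
    have h2 : 2 * (∑ j, ((a i j * v j : ℕ) : ℤ)) + 1 ≤ Θ := by exact_mod_cast hΘ
    have hXnn : (0 : ℤ) ≤ ∑ j, ((a i j * v j : ℕ) : ℤ) := Finset.sum_nonneg fun j _ => by positivity
    have hk0 : (0 : ℤ) ≤ (k : ℤ) := by positivity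
    have hk3 : 2 * ((κ : ℤ) - k) ≤ 2 * κ := by linarith
    set X : ℤ := ∑ j, ((a i j * v j : ℕ) : ℤ) with hX
    set Y : ℤ := ∑ j, cart a i j * (v j : ℤ) with hY
    have hκ0 : (0 : ℤ) ≤ (κ : ℤ) := by positivity
    have h3 : 0 ≤ 2 * ((κ : ℤ) - k) * ((e : ℤ) * u) := by positivity
    have h4 : 2 * ((κ : ℤ) - k) * ((e : ℤ) * u) * (-X) ≤ 2 * ((κ : ℤ) - k) * ((e : ℤ) * u) * Y :=
      mul_le_mul_of_nonneg_left h1 h3
    have h5 : 2 * ((κ : ℤ) - k) * ((e : ℤ) * u) * X ≤ 2 * (κ : ℤ) * ((e : ℤ) * u) * X :=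
      mul_le_mul_of_nonneg_right (mul_le_mul_of_nonneg_right hk3 heu) hXnn
    have h6 : 0 ≤ (κ : ℤ) * ((e : ℤ) * u) := mul_nonneg hκ0 heu
    have h7 : (Θ : ℤ) * ((κ : ℤ) * ((e : ℤ) * u)) * 1 ≤
        (Θ : ℤ) * ((κ : ℤ) * ((e : ℤ) * u)) * (-cw a α i) :=
      mul_le_mul_of_nonneg_left hs (by positivity)
    have h8 : (2 * X + 1) * ((κ : ℤ) * ((e : ℤ) * u)) ≤ (Θ : ℤ) * ((κ : ℤ) * ((e : ℤ) * u)) :=
      mul_le_mul_of_nonneg_right h2 h6
    push_cast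
    nlinarith

end Pool.Agent.H27.KB
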