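import Pool.Agent.H27.KB.H9
import Pool.Agent.H27.KAC.KH10

/-!
KAC ADE, growth part: comparison with the real entropy, second half.
-/

set_option autoImplicit false

namespace Pool.Agent.H27.KB

open scoped BigOperators
open Pool.Agent.H27.KAC Pool.H88.KA
open Filter Topology

variable {I : Type} [Fintype I] [DecidableEq I]

theorem KH10_strictE (a : I → I → ℕ) (α : I →₀ ℕ) (hα : AmpG a α) (K : ℕ) (hK : 2 ≤ K)
    (w : ℕ → I → ℝ) (hw : Feas a K w (fun i => (α i : ℝ))) (h1 : ∀ i, 0 < w 1 i)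
    (hv : ∀ k i, 1 ≤ k → k < K → 0 < vacR a K w k i) : EntR a K w ≤ hsup a α := by
  have hK1 : 1 ≤ K := by omega
  -- eventually admissible
  have hA : ∀ᶠ n : ℕ in atTop, Adm a (n • α) (KH10_F K w α n) := by
    have e1 : ∀ i, ∀ᶠ n : ℕ in atTop, 1 ≤ mAt (KH10_F K w α n) 1 i := by
      intro i
      have := (KH10_tendsto K hK1 w α hw.nn hw.mass 1 le_rfl hK1 i).eventually
        (eventually_gt_nhds (h1 i))
      filter_upwards [this] with n hn
      by_contra hc
      have : mAt (KH10_F K w α n) 1 i = 0 := by omega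
      rw [this] at hn
      simp at hn
    have e2 : ∀ i, ∀ k ∈ Finset.Ico 1 K, ∀ᶠ n : ℕ in atTop, 1 ≤ PLF a (KH10_F K w α n) k i := by
      intro i k hk
      rw [Finset.mem_Ico] at hk
      have := (KH10_vac_tendsto a K hK1 w α hw.nn hw.mass k i).eventually
        (eventually_gt_nhds (hv k i hk.1 hk.2))
      filter_upwards [this, eventually_ge_atTop 1] with n hn hn1
      have hn' : (0 : ℝ) < n := by exact_mod_cast hn1
      have h5 : (0 : ℝ) < (PLF a (KH10_F K w α n) k i : ℝ) := by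
        by_contra hc
        have := mul_nonpos_of_nonneg_of_nonpos (inv_nonneg.2 hn'.le) (not_lt.1 hc)
        linarith
      have h6 : 0 < PLF a (KH10_F K w α n) k i := by exact_mod_cast h5
      omega
    have e3 : ∀ᶠ n : ℕ in atTop, ∀ i, 1 ≤ mAt (KH10_F K w α n) 1 i := eventually_all.2 e1
    have e4 : ∀ᶠ n : ℕ in atTop, ∀ i, ∀ k ∈ Finset.Ico 1 K, 1 ≤ PLF a (KH10_F K w α n) k i :=
      eventually_all.2 fun i => (eventually_all_finset _).2 (e2 i)
    filter_upwards [e3, e4] with n h3 h4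
    refine ⟨?_, h3, fun l hl hlK i => h4 i l (Finset.mem_Ico.2 ⟨hl, hlK⟩)⟩
    have := KH10_mass K hK1 w α hw.nn hw.mass n
    rw [KG5_coe]
    exact this
  -- the bound for the logarithms
  set C : ℝ := ((∑ i, ∑ j, a i j * α j + ∑ i, α i + 1 : ℕ) : ℝ) with hC
  have hCpos : 0 < C := by
    rw [hC]
    positivity
  have hb : ∀ᶠ n : ℕ in atTop,
      EntR a K (fun l j => (n : ℝ)⁻¹ * (mAt (KH10_F K w α n) l j : ℝ)) -
        (K * Fintype.card I : ℕ) * (Real.log (C * n) / n) ≤ hsup a α := by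
    filter_upwards [hA, eventually_ge_atTop 1] with n hn hn1
    have hn' : (0 : ℝ) < n := by exact_mod_cast hn1
    have h2 : Real.log (EW a (KH10_F K w α n)) / n ≤ hsup a α :=
      le_csSup (hsup_bddE a α hα) ⟨K, n, hK, hn1, _, hn, rfl⟩
    refine le_trans ?_ h2
    rw [KH9_entE a α hα hn1 _ hn, KH9_log_EW, div_eq_inv_mul, div_eq_inv_mul, mul_left_comm,
      ← mul_sub]
    refine mul_le_mul_of_nonneg_left ?_ (inv_nonneg.2 hn'.le)
    have h3 : ((K * Fintype.card I : ℕ) : ℝ) * Real.log (C * n) =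
        ∑ l ∈ Finset.Icc 1 K, ∑ i : I, Real.log (C * n) := by
      simp [mul_assoc]
    rw [h3, ← Finset.sum_sub_distrib]
    refine Finset.sum_le_sum fun l hl => ?_
    rw [Finset.mem_Icc] at hl
    rw [← Finset.sum_sub_distrib]
    refine Finset.sum_le_sum fun i _ => ?_
    have h4 := ent_le_log_choose (PLF a (KH10_F K w α n) l i).toNat (mAt (KH10_F K w α n) l i)
    have h5 : Real.log (((PLF a (KH10_F K w α n) l i).toNat : ℝ) +
        (mAt (KH10_F K w α n) l i : ℝ) + 1) ≤ Real.log (C * n) := by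
      refine Real.log_le_log (by positivity) ?_
      have h6 : (PLF a (KH10_F K w α n) l i).toNat ≤ (∑ i, ∑ j, a i j * α j) * n := by
        have := Int.toNat_le.2 (KG5_PLF a α (KH10_F K w α n) hn.1 l i)
        exact this
      have h7 : mAt (KH10_F K w α n) l i ≤ (∑ i, α i) * n := by
        have h8 : mAt (KH10_F K w α n) l i ≤ n * α i := by
          unfold mAt
          rw [dif_pos hl]
          have h9 := (Finset.mem_filter.1 hn.1).2 i
          simp only [Finsupp.smul_apply, smul_eq_mul] at h9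
          rw [← h9]
          calc KH10_F K w α n ⟨l - 1, by omega⟩ i
              ≤ ((⟨l - 1, by omega⟩ : Fin K) + 1 : ℕ) * KH10_F K w α n ⟨l - 1, by omega⟩ i :=
                Nat.le_mul_of_pos_left _ (Nat.succ_pos _)
            _ ≤ _ := Finset.single_le_sum
                (f := fun k : Fin K => ((k : ℕ) + 1) * KH10_F K w α n k i)
                (fun _ _ => Nat.zero_le _) (Finset.mem_univ _)
        refine h8.trans ?_
        rw [mul_comm]
        exact Nat.mul_le_mul_right n (Finset.single_le_sum (f := fun i => α i)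
          (fun _ _ => Nat.zero_le _) (Finset.mem_univ i))
      have h10 : (PLF a (KH10_F K w α n) l i).toNat + mAt (KH10_F K w α n) l i + 1 ≤
          (∑ i, ∑ j, a i j * α j + ∑ i, α i + 1) * n := by
        nlinarith
      rw [hC]
      exact_mod_cast h10
    linarith
  have hlim : Tendsto (fun n : ℕ =>
      EntR a K (fun l j => (n : ℝ)⁻¹ * (mAt (KH10_F K w α n) l j : ℝ)) -
        (K * Fintype.card I : ℕ) * (Real.log (C * n) / n)) atTop
      (𝓝 (EntR a K w - (K * Fintype.card I : ℕ) * 0)) := by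
    refine Tendsto.sub ?_ ((kGMain_log C hCpos).const_mul _)
    unfold EntR
    refine tendsto_finsetSum _ fun l hl => ?_
    rw [Finset.mem_Icc] at hl
    refine tendsto_finsetSum _ fun i _ => ?_
    have h3 : Tendsto (fun n : ℕ =>
        vacR a K (fun l j => (n : ℝ)⁻¹ * (mAt (KH10_F K w α n) l j : ℝ)) l i) atTop
        (𝓝 (vacR a K w l i)) := by
      refine (KH10_vac_tendsto a K hK1 w α hw.nn hw.mass l i).congr fun n => ?_
      rw [KH9_vac]
    have h4 := KH10_tendsto K hK1 w α hw.nn hw.mass l hl.1 hl.2 i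
    exact KH10_ent_tendsto h3 h4
  rw [mul_zero, sub_zero] at hlim
  exact le_of_tendsto hlim hb

theorem PhiR_le_hsupE (a : I → I → ℕ) (hg : Eng a) (α : I →₀ ℕ) (hα : AmpG a α) :
    PhiR a (fun i => (α i : ℝ)) ≤ hsup a α := by
  obtain ⟨N0, hN0⟩ := Adm_existsE a hg α hα 2 le_rfl
  obtain ⟨m1, hm1⟩ := hN0 (max N0 1) (le_max_left _ _)
  have hkon : Kon a (fun i => (α i : ℝ)) :=
    (KH9_feasE a α hα (le_max_right _ _) m1 hm1).kon
  refine PhiR_le hkon fun K0 m hm0 => ?_
  obtain ⟨K, hK, hK0⟩ : ∃ K, 2 ≤ K ∧ K0 ≤ K := ⟨max K0 2, le_max_right _ _, le_max_left _ _⟩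
  have hm := hm0.enlarge hK0
  rw [← EntR_enlarge hm0 hK0]
  clear hm0 hK0
  obtain ⟨N1, hN1⟩ := Adm_existsE a hg α hα K hK
  obtain ⟨m2, hm2⟩ := hN1 (max N1 1) (le_max_left _ _)
  set n := max N1 1 with hn
  have hn1 : 1 ≤ n := le_max_right _ _
  have hn' : (0 : ℝ) < n := by exact_mod_cast hn1
  have hf := KH9_feasE a α hα hn1 m2 hm2
  have hf1 : ∀ i, 0 < (n : ℝ)⁻¹ * (mAt m2 1 i : ℝ) := by
    intro i
    have : (0 : ℝ) < (mAt m2 1 i : ℝ) := by exact_mod_cast hm2.2.1 i
    positivity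
  have hf2 : ∀ k i, 1 ≤ k → k < K →
      0 < vacR a K (fun l j => (n : ℝ)⁻¹ * (mAt m2 l j : ℝ)) k i := by
    intro k i h1 h2
    rw [KH9_vac]
    have : (0 : ℝ) < (PLF a m2 k i : ℝ) := by
      have := hm2.2.2 k h1 h2 i
      exact_mod_cast this
    positivity
  have key : ∀ η : ℝ, 0 < η → η < 1 → (1 - η) * EntR a K m ≤ hsup a α := by
    intro η h0 h1
    have g1 := hm.smul (t := 1 - η) (by linarith)
    have g2 := hf.smul (t := η) h0.le
    have g3 := g1.add g2
    have g4 : (1 - η) • (fun i => (α i : ℝ)) + η • (fun i => (α i : ℝ)) = fun i => (α i : ℝ) := by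
      rw [← add_smul]
      simp
    rw [g4] at g3
    have g5 := EntR_add g1 g2
    rw [EntR_smul hm (by linarith), EntR_smul hf h0.le] at g5
    have g6 := hf.EntR_nonneg
    have g7 : (1 - η) * EntR a K m ≤ (1 - η) * EntR a K m + η *
        EntR a K (fun l j => (n : ℝ)⁻¹ * (mAt m2 l j : ℝ)) :=
      le_add_of_nonneg_right (mul_nonneg h0.le g6)
    refine (g7.trans g5).trans ?_
    refine KH10_strictE a α hα K hK _ g3 (fun i => ?_) (fun k i hk hkK => ?_)
    · have := hm.nn 1 i
      have h2 := hf1 i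
      have h3 : 0 ≤ (1 - η) * m 1 i := mul_nonneg (by linarith) this
      have h4 : 0 < η * ((n : ℝ)⁻¹ * (mAt m2 1 i : ℝ)) := mul_pos h0 h2
      linarith
    · rw [vacR_add, vacR_smul, vacR_smul]
      have h2 := hm.vac k i
      have h3 := hf2 k i hk hkK
      have h4 : 0 ≤ (1 - η) * vacR a K m k i := mul_nonneg (by linarith) h2
      have h5 := mul_pos h0 h3
      linarith
  -- let η tend to zero
  have hE := hm.EntR_nonneg
  by_contra hc
  have hc' : hsup a α < EntR a K m := not_le.1 hc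
  have hpos : 0 < EntR a K m := lt_of_le_of_lt (hsup_nonnegE a hg α hα) hc'
  have h2 := key (1 - (hsup a α + EntR a K m) / (2 * EntR a K m)) (by
    rw [sub_pos, div_lt_one (by positivity)]
    linarith) (by
    have := hsup_nonnegE a hg α hα
    have : 0 < (hsup a α + EntR a K m) / (2 * EntR a K m) := by positivity
    linarith)
  rw [sub_sub_cancel] at h2
  have h3 : (hsup a α + EntR a K m) / (2 * EntR a K m) * EntR a K m =
      (hsup a α + EntR a K m) / 2 := by
    field_simp
  rw [h3] at h2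
  linarith

end Pool.Agent.H27.KB
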