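import Pool.Agent.H27.KB.H10
import Pool.Agent.H27.KAC.KH12

/-!
KAC ADE, growth part: the limit is hsup.
-/

set_option autoImplicit false

namespace Pool.Agent.H27.KB

open scoped BigOperators
open Pool.Agent.H27.KAC Pool.H88.KA
open Filter Topology

variable {I : Type} [Fintype I] [DecidableEq I]

theorem growth_Ample_hsupE (a : I → I → ℕ) (hg : Eng a) (hne : Nonempty I)
    (f : (I → ℕ) → ℚ) (hK : KacData a f) (hf : ∀ β, 0 ≤ f β) (α : I →₀ ℕ) (h : AmpG a α) :
    0 ≤ hsup a α ∧ (∀ᶠ n : ℕ in atTop, 0 < f (fun i => n * α i)) ∧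
      Tendsto (fun n : ℕ => Real.log ((f (fun i => n * α i) : ℚ) : ℝ) / n) atTop
        (𝓝 (hsup a α)) := by
  -- the set of the supremum is nonempty
  have hnon : {x : ℝ | ∃ K n : ℕ, 2 ≤ K ∧ 1 ≤ n ∧ ∃ m : Fin K → I → ℕ, Adm a (n • α) m ∧
      x = Real.log (EW a m) / n}.Nonempty := by
    obtain ⟨N0, hN0⟩ := Adm_existsE a hg α h 2 le_rfl
    obtain ⟨m, hm⟩ := hN0 (max N0 1) (le_max_left _ _)
    exact ⟨_, 2, max N0 1, le_rfl, le_max_right _ _, m, hm, rfl⟩
  have hpos : ∀ᶠ n : ℕ in atTop, 0 < f (fun i => n * α i) := by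
    obtain ⟨x, K, n0, hK2, hn0, m0, hm0, -⟩ := hnon
    obtain ⟨N1, C, hN1, hC1, hlow⟩ := kGMain_lowerE a hg f hK α h K n0 hK2 hn0 m0 hm0
    filter_upwards [eventually_ge_atTop N1] with n hn
    exact (hlow n hn).1
  refine ⟨hsup_nonnegE a hg α h, hpos, ?_⟩
  have hinv : Tendsto (fun n : ℕ => ((n : ℝ))⁻¹) atTop (𝓝 0) :=
    tendsto_inv_atTop_nhds_zero_nat
  refine tendsto_order.2 ⟨?_, ?_⟩
  · intro b hb
    obtain ⟨x, ⟨K, n0, hK2, hn0, m0, hm0, rfl⟩, hbx⟩ := exists_lt_of_lt_csSup hnon hb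
    obtain ⟨N1, C, hN1, hC1, hlow⟩ := kGMain_lowerE a hg f hK α h K n0 hK2 hn0 m0 hm0
    have hCpos : (0 : ℝ) < C := by exact_mod_cast hC1
    have hlim : Tendsto (fun n : ℕ => (1 - ((N1 : ℝ) + n0) / n) * (Real.log (EW a m0) / n0) -
        C * (Real.log (C * n) / n)) atTop
        (𝓝 ((1 - 0) * (Real.log (EW a m0) / n0) - C * 0)) := by
      refine Tendsto.sub (Tendsto.mul_const _ (Tendsto.sub tendsto_const_nhds ?_))
        ((kGMain_log C hCpos).const_mul _)
      have := hinv.const_mul ((N1 : ℝ) + n0)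
      rw [mul_zero] at this
      exact this
    rw [sub_zero, one_mul, mul_zero, sub_zero] at hlim
    filter_upwards [hlim.eventually (lt_mem_nhds hbx), eventually_ge_atTop N1] with n h1 h2
    exact lt_of_lt_of_le h1 (hlow n h2).2
  · intro b hb
    have hε : 0 < (b - hsup a α) / 3 := by linarith
    have hh0 := hsup_nonnegE a hg α h
    obtain ⟨q, hq⟩ := exists_nat_gt (hsup a α / ((b - hsup a α) / 3))
    have hq0 : (0 : ℝ) < q := lt_of_le_of_lt (by positivity) hq
    have hq1 : 1 ≤ q := by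
      have : 0 < q := by exact_mod_cast hq0
      omega
    have hqh : hsup a α / q < (b - hsup a α) / 3 := by
      rw [div_lt_iff₀ hε] at hq
      rw [div_lt_iff₀ hq0]
      linarith
    obtain ⟨N2, T, C, hC1, hup⟩ := f_upperE a hg f hK hf α h hne _ hε q hq1
    have hlim : Tendsto (fun n : ℕ => (1 + 1 / (q : ℝ) + T * (n : ℝ)⁻¹) * hsup a α +
        Real.log C * (n : ℝ)⁻¹ + (b - hsup a α) / 3) atTop
        (𝓝 ((1 + 1 / (q : ℝ) + T * 0) * hsup a α + Real.log C * 0 + (b - hsup a α) / 3)) :=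
      (((tendsto_const_nhds.add (hinv.const_mul _)).mul_const _).add (hinv.const_mul _)).add
        tendsto_const_nhds
    have hlt : (1 + 1 / (q : ℝ) + T * 0) * hsup a α + Real.log C * 0 + (b - hsup a α) / 3 < b := by
      have h1 : 1 / (q : ℝ) * hsup a α = hsup a α / q := by ring
      have h2 : (1 + 1 / (q : ℝ) + T * 0) * hsup a α + Real.log C * 0 + (b - hsup a α) / 3 =
          hsup a α + 1 / (q : ℝ) * hsup a α + (b - hsup a α) / 3 := by ring
      rw [h2, h1]
      linarith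
    filter_upwards [hlim.eventually (gt_mem_nhds hlt), eventually_ge_atTop N2,
      eventually_ge_atTop 1, hpos] with n h1 h2 h3 h4
    refine lt_of_le_of_lt ?_ h1
    have hnpos : (0 : ℝ) < n := by exact_mod_cast h3
    have h5 := hup n h2
    rw [kGMain_coe f α n] at h4 ⊢
    have h6 : (0 : ℝ) < ((f (n • α) : ℚ) : ℝ) := by exact_mod_cast h4
    have hCpos : (0 : ℝ) < C := by linarith
    have h7 := Real.log_le_log h6 h5
    rw [Real.log_mul (Real.exp_pos _).ne' (mul_pos hCpos (Real.exp_pos _)).ne',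
      Real.log_mul hCpos.ne' (Real.exp_pos _).ne', Real.log_exp, Real.log_exp] at h7
    rw [div_le_iff₀ hnpos]
    refine h7.trans (le_of_eq ?_)
    field_simp
    ring

end Pool.Agent.H27.KB
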