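import Pool.Agent.H27.KB.GM
import Pool.Agent.H27.KAC.KH9

/-!
KAC ADE, growth part: comparison with the real entropy, first half.
-/

set_option autoImplicit false

namespace Pool.Agent.H27.KB

open scoped BigOperators
open Pool.Agent.H27.KAC Pool.H88.KA
open Filter Topology

variable {I : Type} [Fintype I] [DecidableEq I]

theorem KH9_Adm_vacE (a : I → I → ℕ) (α : I →₀ ℕ) (hα : AmpG a α) {n K : ℕ}
    (m : Fin K → I → ℕ) (hm : Adm a (n • α) m) (k : ℕ) (i : I) : 0 ≤ PLF a m k i := by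
  rcases Nat.eq_zero_or_pos k with rfl | hk
  · rw [PLF_zero]
  · by_cases h : k < K
    · exact zero_le_one.trans (hm.2.2 k hk h i)
    · rw [PLF_top a (n • α) m hm.1 k (not_lt.1 h) i]
      have h1 : cw a (n • α) i = n * cw a α i := by
        unfold cw
        rw [Finset.mul_sum]
        refine Finset.sum_congr rfl fun j _ => ?_
        simp only [Finsupp.smul_apply, smul_eq_mul]
        push_cast
        ring
      rw [h1]
      have h2 : 0 ≤ -cw a α i := AmpG.snn hα i
      nlinarith [Int.natCast_nonneg n]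

/-- an admissible multipartition gives a feasible real one. -/
theorem KH9_feasE (a : I → I → ℕ) (α : I →₀ ℕ) (hα : AmpG a α) {n K : ℕ} (hn : 1 ≤ n)
    (m : Fin K → I → ℕ) (hm : Adm a (n • α) m) :
    Feas a K (fun l j => (n : ℝ)⁻¹ * (mAt m l j : ℝ)) (fun i => (α i : ℝ)) := by
  have hn' : (0 : ℝ) < n := by exact_mod_cast hn
  refine ⟨fun l i => by positivity, fun l i h => ?_, fun i => ?_, fun k i => ?_⟩
  · have : mAt m l i = 0 := by
      unfold mAt
      rw [dif_neg]
      omega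
    simp [this]
  · rw [KH9_mass m _ _ hm.1]
    simp only [Finsupp.smul_apply, smul_eq_mul]
    push_cast
    field_simp
  · rw [KH9_vac]
    have := KH9_Adm_vacE a α hα m hm k i
    have h2 : (0 : ℝ) ≤ (PLF a m k i : ℝ) := by exact_mod_cast this
    positivity

theorem KH9_entE (a : I → I → ℕ) (α : I →₀ ℕ) (hα : AmpG a α) {n K : ℕ} (hn : 1 ≤ n)
    (m : Fin K → I → ℕ) (hm : Adm a (n • α) m) :
    EntR a K (fun l j => (n : ℝ)⁻¹ * (mAt m l j : ℝ)) =
      (n : ℝ)⁻¹ * ∑ l ∈ Finset.Icc 1 K, ∑ i, ent ((PLF a m l i).toNat : ℝ) (mAt m l i : ℝ) := by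
  have hn' : (0 : ℝ) < n := by exact_mod_cast hn
  unfold EntR
  rw [Finset.mul_sum]
  refine Finset.sum_congr rfl fun l _ => ?_
  rw [Finset.mul_sum]
  refine Finset.sum_congr rfl fun i _ => ?_
  have h1 := KH9_Adm_vacE a α hα m hm l i
  have h2 : ((PLF a m l i).toNat : ℝ) = (PLF a m l i : ℝ) := by
    have : (((PLF a m l i).toNat : ℤ) : ℝ) = (PLF a m l i : ℝ) := by rw [Int.toNat_of_nonneg h1]
    exact_mod_cast this
  rw [KH9_vac, h2, ent_smul (by positivity) (by exact_mod_cast h1) (by positivity)]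

theorem hsup_le_PhiRE (a : I → I → ℕ) (hg : Eng a) (α : I →₀ ℕ) (hα : AmpG a α) :
    hsup a α ≤ PhiR a (fun i => (α i : ℝ)) := by
  unfold hsup
  refine csSup_le ?_ ?_
  · obtain ⟨N0, hN0⟩ := Adm_existsE a hg α hα 2 le_rfl
    obtain ⟨m, hm⟩ := hN0 (max N0 1) (le_max_left _ _)
    exact ⟨_, 2, max N0 1, le_rfl, le_max_right _ _, m, hm, rfl⟩
  · rintro x ⟨K, n, hK, hn, m, hm, rfl⟩
    have hn' : (0 : ℝ) < n := by exact_mod_cast hn
    refine le_trans ?_ (le_PhiR (KH9_feasE a α hα hn m hm))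
    rw [KH9_entE a α hα hn m hm, KH9_log_EW, div_eq_inv_mul]
    refine mul_le_mul_of_nonneg_left ?_ (by positivity)
    exact Finset.sum_le_sum fun l _ => Finset.sum_le_sum fun i _ => log_choose_le _ _

end Pool.Agent.H27.KB
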