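import Pool.Agent.H27.KB.Eng
import Pool.Agent.H27.KAC.KG5

/-!
KAC ADE, growth part: the upper bound.
-/

set_option autoImplicit false

namespace Pool.Agent.H27.KB

open scoped BigOperators
open Pool.Agent.H27.KAC Pool.H88.KA
open Filter Topology

variable {I : Type} [Fintype I] [DecidableEq I]

theorem hsup_bddE (a : I → I → ℕ) (α : I →₀ ℕ) (hα : AmpG a α) :
    BddAbove {x : ℝ | ∃ K n : ℕ, 2 ≤ K ∧ 1 ≤ n ∧ ∃ m : Fin K → I → ℕ, Adm a (n • α) m ∧
      x = Real.log (EW a m) / n} := by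
  obtain ⟨c, C, hc, hC, h⟩ := KG5_EW_le a α
  refine ⟨Real.log C + c, ?_⟩
  rintro x ⟨K, n, hK, hn, m, hm, rfl⟩
  have hn0 : (0 : ℝ) < n := by exact_mod_cast hn
  have hn1 : (1 : ℝ) ≤ n := by exact_mod_cast hn
  rw [div_le_iff₀ hn0]
  have h1 := h n K m hm.1
  have h2 : (0 : ℝ) < EW a m := by
    have := EW_pos a m
    exact_mod_cast this
  have h3 := Real.log_le_log h2 h1
  rw [Real.log_mul (by positivity) (Real.exp_pos _).ne', Real.log_exp] at h3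
  have h4 : 0 ≤ Real.log C := Real.log_nonneg hC
  nlinarith

theorem hsup_nonnegE (a : I → I → ℕ) (hg : Eng a) (α : I →₀ ℕ) (hα : AmpG a α) :
    0 ≤ hsup a α := by
  refine Real.sSup_nonneg ?_
  rintro x ⟨K, n, hK, hn, m, hm, rfl⟩
  refine div_nonneg (Real.log_nonneg ?_) (Nat.cast_nonneg _)
  exact_mod_cast EW_pos a m

theorem le_hsupE (a : I → I → ℕ) (α : I →₀ ℕ) (hα : AmpG a α) (K n : ℕ) (hK : 2 ≤ K)
    (hn : 1 ≤ n) (m : Fin K → I → ℕ) (hm : Adm a (n • α) m) :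
    (EW a m : ℝ) ≤ Real.exp (n * hsup a α) := by
  have h1 : Real.log (EW a m) / n ≤ hsup a α :=
    le_csSup (hsup_bddE a α hα) ⟨K, n, hK, hn, m, hm, rfl⟩
  have hn0 : (0 : ℝ) < n := by exact_mod_cast hn
  rw [div_le_iff₀ hn0] at h1
  have h2 : (0 : ℝ) < EW a m := by
    have := EW_pos a m
    exact_mod_cast this
  rw [← Real.log_le_iff_le_exp h2]
  linarith

theorem f_upperE (a : I → I → ℕ) (hg : Eng a)
    (f : (I → ℕ) → ℚ) (hK : KacData a f) (hf : ∀ β, 0 ≤ f β) (α : I →₀ ℕ) (hα : AmpG a α)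
    (hne : Nonempty I) (ε : ℝ) (hε : 0 < ε) (q : ℕ) (hq : 1 ≤ q) :
    ∃ (n0 T : ℕ) (C : ℝ), 1 ≤ C ∧ ∀ n : ℕ, n0 ≤ n →
      ((f (n • α) : ℚ) : ℝ) ≤
        Real.exp (((n : ℝ) + (n : ℝ) / q + T) * hsup a α) * (C * Real.exp (ε * n)) := by
  obtain ⟨L0, hL0, C, hC, hgen⟩ :=
    gen_bound_eps (fun i => α i) (∑ i, ∑ j, a i j * α j + 2 * ∑ i, α i) ε hε
  obtain ⟨n0, T, hwin⟩ := windowE a hg α hα q hq L0 hL0
  refine ⟨max n0 1, T, C, hC, fun n hn => ?_⟩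
  have hn0 : n0 ≤ n := (le_max_left _ _).trans hn
  have hn1 : 1 ≤ n := (le_max_right _ _).trans hn
  have hα' := AmpG.nsmul hα n hn1
  have hcw : ∀ i, 0 ≤ -cw a (n • α) i := by
    exact AmpG.snn hα'
  have hne0 : n • α ≠ 0 := by
    obtain ⟨i⟩ := hne
    intro h0
    have h1 := hα'.supp i
    rw [h0] at h1
    simp at h1
  have h1 := f_le_Msum a hg.symm hg.diag f hK hf (n • α) hne0 (tdeg (n • α)) le_rfl
    (fun i => by
      have := hcw i
      positivity)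
  set K : ℕ := tdeg (n • α) with hKdef
  have h2 : ((f (n • α) : ℚ) : ℝ) ≤ ((Msum a K 2 (n • α) : ℚ) : ℝ) := by exact_mod_cast h1
  refine h2.trans ?_
  set E : ℝ := Real.exp (((n : ℝ) + (n : ℝ) / q + T) * hsup a α) with hE
  have hE0 : 0 ≤ E := (Real.exp_pos _).le
  have hterm : ∀ m ∈ (Mset K (n • α)).filter (fun m => ∀ (k : Fin K) (i : I),
      0 ≤ PLF a m ((k : ℕ) + 1) i + ((k : ℤ) + 1) * ((2 : ℕ) : ℤ)),
      ((∏ k : Fin K, ∏ i : I,
        ((PLF a m ((k : ℕ) + 1) i + ((k : ℤ) + 1) * ((2 : ℕ) : ℤ)).toNat + m k i).choose (m k i) :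
          ℕ) : ℝ) ≤ E * ∏ l : Fin K, ∏ i : I,
        (if L0 ≤ (l : ℕ) then ((((∑ i, ∑ j, a i j * α j + 2 * ∑ i, α i) * n + m l i).choose
          (m l i) : ℕ) : ℝ) else 1) := by
    intro m hm
    obtain ⟨hm1, hm2⟩ := Finset.mem_filter.1 hm
    obtain ⟨L, κ, n', hL, hκ, hn', hn'', m', hm', hprod⟩ := hwin n hn0 K m hm1
      (fun k i => by simpa using hm2 k i)
    have h3 := KG5_term a α m hm1 L L0 hL
    have h4 := h3.trans (Nat.mul_le_mul_right _ hprod)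
    have h5 : ((∏ k : Fin K, ∏ i : I,
        ((PLF a m ((k : ℕ) + 1) i + ((k : ℤ) + 1) * ((2 : ℕ) : ℤ)).toNat + m k i).choose (m k i) :
          ℕ) : ℝ) ≤ (EW a m' : ℝ) * ∏ l : Fin K, ∏ i : I,
        (if L0 ≤ (l : ℕ) then ((((∑ i, ∑ j, a i j * α j + 2 * ∑ i, α i) * n + m l i).choose
          (m l i) : ℕ) : ℝ) else 1) := by
      have h6 : ((∏ k : Fin K, ∏ i : I,
        ((PLF a m ((k : ℕ) + 1) i + ((k : ℤ) + 1) * ((2 : ℕ) : ℤ)).toNat + m k i).choose (m k i) :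
          ℕ) : ℝ) ≤ ((EW a m' * ∏ k : Fin K, ∏ i : I, (if L0 ≤ (k : ℕ) then
        (((∑ i, ∑ j, a i j * α j + 2 * ∑ i, α i) * n + m k i).choose (m k i)) else 1) : ℕ) : ℝ) :=
        Nat.cast_le.2 h4
      refine h6.trans (le_of_eq ?_)
      rw [Nat.cast_mul, Nat.cast_prod]
      congr 1
      refine Finset.prod_congr rfl (fun k _ => ?_)
      rw [Nat.cast_prod]
      refine Finset.prod_congr rfl (fun i _ => ?_)
      split_ifs
      · rfl
      · simp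
    refine h5.trans (mul_le_mul_of_nonneg_right ?_ ?_)
    · refine (le_hsupE a α hα κ n' hκ hn' m' hm').trans ?_
      rw [hE]
      refine Real.exp_le_exp.2 (mul_le_mul_of_nonneg_right ?_ (hsup_nonnegE a hg α hα))
      have h7 : (n' : ℝ) ≤ ((n + n / q + T : ℕ) : ℝ) := by exact_mod_cast hn''
      have h8 : ((n / q : ℕ) : ℝ) ≤ (n : ℝ) / q := Nat.cast_div_le
      push_cast at h7
      linarith
    · refine Finset.prod_nonneg (fun l _ => Finset.prod_nonneg (fun i _ => ?_))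
      split_ifs
      · exact Nat.cast_nonneg _
      · exact zero_le_one
  have h3 : ((Msum a K 2 (n • α) : ℚ) : ℝ) =
      ∑ m ∈ (Mset K (n • α)).filter (fun m => ∀ (k : Fin K) (i : I),
      0 ≤ PLF a m ((k : ℕ) + 1) i + ((k : ℤ) + 1) * ((2 : ℕ) : ℤ)),
      ((∏ k : Fin K, ∏ i : I,
        ((PLF a m ((k : ℕ) + 1) i + ((k : ℤ) + 1) * ((2 : ℕ) : ℤ)).toNat + m k i).choose (m k i) :
          ℕ) : ℝ) := by
    unfold Msum
    push_cast
    rfl
  rw [h3]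
  refine (Finset.sum_le_sum hterm).trans ?_
  rw [← Finset.mul_sum]
  refine mul_le_mul_of_nonneg_left ?_ hE0
  refine le_trans ?_ (hgen n K)
  rw [← KG5_coe]
  refine Finset.sum_le_sum_of_subset_of_nonneg (Finset.filter_subset _ _) (fun m _ _ => ?_)
  refine Finset.prod_nonneg (fun l _ => Finset.prod_nonneg (fun i _ => ?_))
  split_ifs
  · exact Nat.cast_nonneg _
  · exact zero_le_one

end Pool.Agent.H27.KB
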