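import Pool.Agent.H27.KB.G2

/-!
KAC ADE, growth part: the window lemma for general quivers.
-/

set_option autoImplicit false

namespace Pool.Agent.H27.KB

open scoped BigOperators
open Pool.Agent.H27.KAC Pool.H88.KA

variable {I : Type} [Fintype I] [DecidableEq I]

theorem window_one' (a : I → I → ℕ) (α : I →₀ ℕ) (hα : AmpG a α) (v : I → ℕ)
    (hv : ∀ i, cw a α i = 0 → 1 ≤ ∑ j, cart a i j * (v j : ℤ))
    (n K : ℕ) (m : Fin K → I → ℕ) (hm : m ∈ Mset K (n • α))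
    (hP : ∀ (k : Fin K) (i : I), 0 ≤ PLF a m ((k : ℕ) + 1) i + ((k : ℤ) + 1) * 2)
    (A1 : ℕ) (hA1 : ∀ i, ∑ j, |cart a i j| ≤ (A1 : ℤ))
    (Θ : ℕ) (hΘ2 : ∀ i, 2 * v i + 1 ≤ Θ) (hΘ : ∀ i, 2 * ∑ j, a i j * v j + 1 ≤ Θ)
    (L κ M u : ℕ) (hL : 1 ≤ L) (hκ : 2 * L ≤ κ) (hM : κ ∣ M) (hM1 : 1 ≤ M) (hu : 1 ≤ u)
    (hE : ∀ j, A1 * (κ + L * ((∑ l ∈ Finset.Icc (L + 1) K, l * mAt m l j) / κ) +
        L * ∑ l ∈ Finset.Icc (L + 1) K, mAt m l j) + 4 * L + 1 ≤ M * u) :
    ∃ m' : Fin κ → I → ℕ, Adm a ((n + Θ * M * u) • α) m' ∧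
      (∏ l ∈ Finset.Icc 1 L, ∏ i,
        ((PLF a m l i + 2 * (l : ℤ)).toNat + mAt m l i).choose (mAt m l i)) ≤ EW a m' := by
  classical
  obtain ⟨e, rfl⟩ := hM
  obtain ⟨w, hw⟩ : ∃ w : I → ℕ, ∀ j, w j = ∑ l ∈ Finset.Icc (L + 1) K, l * mAt m l j :=
    ⟨_, fun _ => rfl⟩
  obtain ⟨b, hb⟩ : ∃ b : I → ℕ, ∀ j, b j = ∑ l ∈ Finset.Icc (L + 1) K, mAt m l j :=
    ⟨_, fun _ => rfl⟩
  obtain ⟨c, hc⟩ : ∃ c : I → ℕ, ∀ j, c j = 2 * (e * u * v j) := ⟨_, fun _ => rfl⟩
  have hκ1 : L < κ := by omega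
  have hcle : ∀ i, κ * c i + 1 ≤ Θ * (κ * e) * u * α i := by
    intro i
    rw [hc]
    have h3 : 1 ≤ κ * e * u := Nat.mul_pos hM1 hu
    have h4 : (2 * v i + 1) * (κ * e * u) ≤ Θ * (κ * e * u) := Nat.mul_le_mul_right _ (hΘ2 i)
    have h5 : Θ * (κ * e * u) * 1 ≤ Θ * (κ * e * u) * α i := Nat.mul_le_mul_left _ (hα.supp i)
    have h6 : Θ * (κ * e * u) * α i = Θ * (κ * e) * u * α i := by ring
    have h7 : (2 * v i + 1) * (κ * e * u) = κ * (2 * (e * u * v i)) + κ * e * u := by ring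
    omega
  obtain ⟨x, hx⟩ : ∃ x : I → ℕ, ∀ i, x i = (Θ * (κ * e) * u * α i - κ * c i) + w i % κ :=
    ⟨_, fun _ => rfl⟩
  obtain ⟨y, hy⟩ : ∃ y : I → ℕ, ∀ i, y i = w i / κ + c i := ⟨_, fun _ => rfl⟩
  have hxc : ∀ i, (x i : ℤ) = (Θ * (κ * e) * u : ℕ) * (α i : ℤ) - κ * c i + (w i % κ : ℕ) := by
    intro i
    have h1 : κ * c i ≤ Θ * (κ * e) * u * α i := by have := hcle i; omega
    rw [hx]
    push_cast [Nat.cast_sub h1]
    ring
  have hyc : ∀ i, (y i : ℤ) = (w i / κ : ℕ) + c i := by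
    intro i
    rw [hy]
    push_cast
    ring
  have hdm : ∀ i, (κ : ℤ) * (w i / κ : ℕ) + (w i % κ : ℕ) = w i := by
    intro i
    exact_mod_cast Nat.div_add_mod (w i) κ
  have hwc : ∀ j, (w j : ℤ) = ∑ l ∈ Finset.Icc (L + 1) K, (l : ℤ) * (mAt m l j : ℤ) := by
    intro j
    rw [hw]
    push_cast
    rfl
  have hbc : ∀ j, (b j : ℤ) = ∑ l ∈ Finset.Icc (L + 1) K, (mAt m l j : ℤ) := by
    intro j
    rw [hb]
    push_cast
    rfl
  have hsnn : ∀ i, 0 ≤ -cw a α i := AmpG.snn hα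
  have hmem : KG2_mm m L κ x y ∈ Mset κ ((n + Θ * (κ * e) * u) • α) := by
    apply KG2_mem_Mset
    intro i
    have h1 := KG2_mem_sum m _ hm i
    have h2 := KG2_sumc m L (fun l => (l : ℤ)) i
    have h3 := KG2_mm_sum m L κ hL hκ1 x y (fun l => (l : ℤ)) i
    rw [Finsupp.smul_apply, smul_eq_mul] at h1 ⊢
    zify
    zify at h1
    simp only [Nat.cast_add, Nat.cast_one] at h2 h3
    rw [h3]
    rw [h2, ← hwc i] at h1
    rw [hxc, hyc]
    have h4 := hdm i
    push_cast at h4 ⊢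
    linear_combination h1 + h4
  have hP1 : ∀ k, 1 ≤ k → ∀ i, 0 ≤ PLF a m k i + (k : ℤ) * 2 := by
    intro k hk i
    rcases le_or_gt k K with h | h
    · have h1 := hP ⟨k - 1, by omega⟩ i
      have h2 : k - 1 + 1 = k := by omega
      have h3 : ((k - 1 : ℕ) : ℤ) + 1 = k := by omega
      simp only [h2, h3] at h1
      exact h1
    · rw [PLF_top a (n • α) m hm k h.le i, KG2_cw_nsmul, ← mul_neg]
      have h1 := mul_nonneg (Int.natCast_nonneg n) (hsnn i)
      positivity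
  -- the difference for small k
  have hdiff : ∀ k, 1 ≤ k → k ≤ L → ∀ i,
      PLF a m k i + 4 * L + 1 ≤ PLF a (KG2_mm m L κ x y) k i := by
    intro k hk hkL i
    have h1 := PLF_eq a (n • α) m hm k i
    have h2 := PLF_eq a ((n + Θ * (κ * e) * u) • α) _ hmem k i
    have h3 : ∀ j, ∑ l' : Fin κ, (((l' : ℕ) + 1 - k : ℕ) : ℤ) * (KG2_mm m L κ x y l' j : ℤ) =
        ∑ l' : Fin K, (((l' : ℕ) + 1 - k : ℕ) : ℤ) * (m l' j : ℤ) +
          ((κ : ℤ) - k) * c j + (-((w j % κ : ℕ) : ℤ) - k * (w j / κ : ℕ) + k * b j) := by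
      intro j
      have h4 := KG2_mm_sum m L κ hL hκ1 x y (fun l => ((l - k : ℕ) : ℤ)) j
      have h5 := KG2_sumc m L (fun l => ((l - k : ℕ) : ℤ)) j
      have h6 : ∑ l ∈ Finset.Icc (L + 1) K, ((l - k : ℕ) : ℤ) * (mAt m l j : ℤ) =
          w j - k * b j := by
        rw [hwc, hbc, Finset.mul_sum, ← Finset.sum_sub_distrib]
        apply Finset.sum_congr rfl
        intro l hl
        rw [Finset.mem_Icc] at hl
        rw [Nat.cast_sub (by omega)]
        ring
      have h7 : 1 - k = 0 := by omega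
      have h8 : ((κ - k : ℕ) : ℤ) = (κ : ℤ) - k := Nat.cast_sub (by omega)
      simp only [h7, h8, Nat.cast_zero, zero_mul, add_zero] at h4
      rw [h4, h5, h6, hyc]
      have h9 := hdm j
      linear_combination h9
    have h4 : PLF a (KG2_mm m L κ x y) k i = PLF a m k i +
        ((Θ * (κ * e) * u : ℕ) * (-cw a α i) +
          ∑ j, cart a i j * (((κ : ℤ) - k) * (c j : ℤ))) +
        ∑ j, cart a i j * (-((w j % κ : ℕ) : ℤ) - k * (w j / κ : ℕ) + k * b j) := by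
      rw [h1, h2]
      simp only [h3, mul_add, Finset.sum_add_distrib]
      rw [KG2_cw_nsmul, KG2_cw_nsmul]
      push_cast
      ring
    have h5 := KG2_main' a α hα v hv Θ i (hΘ i) k κ e u (by omega)
    simp only [← hc] at h5
    have h6 := KG2_err a A1 i (hA1 i)
      (fun j => -((w j % κ : ℕ) : ℤ) - k * (w j / κ : ℕ) + k * b j)
      (fun j => κ + L * (w j / κ) + L * b j) (by
        intro j
        have hkL' : (k : ℤ) ≤ L := by exact_mod_cast hkL
        have g1 : (0 : ℤ) ≤ (w j / κ : ℕ) := Int.natCast_nonneg _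
        have g2 : (0 : ℤ) ≤ (b j : ℤ) := Int.natCast_nonneg _
        have g3 : (0 : ℤ) ≤ (w j % κ : ℕ) := Int.natCast_nonneg _
        have g4 : ((w j % κ : ℕ) : ℤ) ≤ κ := by
          exact_mod_cast (Nat.mod_lt (w j) (by omega)).le
        have g5 := mul_le_mul_of_nonneg_right hkL' g1
        have g6 := mul_le_mul_of_nonneg_right hkL' g2
        have g7 : (0 : ℤ) ≤ (k : ℤ) * (w j / κ : ℕ) := mul_nonneg (Int.natCast_nonneg _) g1
        have g8 : (0 : ℤ) ≤ (k : ℤ) * b j := mul_nonneg (Int.natCast_nonneg _) g2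
        have g9 : ((κ + L * (w j / κ) + L * b j : ℕ) : ℤ) =
          (κ : ℤ) + L * (w j / κ : ℕ) + L * b j := by
            push_cast
            ring
        rw [g9, abs_le]
        constructor <;> linarith only [g4, g5, g6, g8, g7]) (κ * e * u) (4 * L + 1) (by
        intro j
        have := hE j
        rw [← hw, ← hb] at this
        have g1 : A1 * (κ + L * (w j / κ) + L * b j) + (4 * L + 1) =
          A1 * (κ + L * (w j / κ) + L * b j) + 4 * L + 1 := by ring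
        rw [g1]
        exact this)
    have h7 := (abs_le.mp h6).1
    rw [h4]
    push_cast at h5 h7 ⊢
    linarith only [h5, h7]
  -- the values above L
  have hlin : ∀ k, L ≤ k → k ≤ κ → ∀ i, PLF a (KG2_mm m L κ x y) k i =
      ((n + Θ * (κ * e) * u : ℕ) : ℤ) * (-cw a α i) +
        ((κ : ℤ) - k) * ∑ j, cart a i j * (y j : ℤ) := by
    intro k hk hkκ i
    rw [PLF_eq a ((n + Θ * (κ * e) * u) • α) _ hmem k i, KG2_cw_nsmul, Finset.mul_sum, mul_neg]
    congr 1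
    apply Finset.sum_congr rfl
    intro j _
    have h4 := KG2_mm_sum m L κ hL hκ1 x y (fun l => ((l - k : ℕ) : ℤ)) j
    have h5 : ∑ l ∈ Finset.Icc 1 L, ((l - k : ℕ) : ℤ) * (mAt m l j : ℤ) = 0 := by
      apply Finset.sum_eq_zero
      intro l hl
      rw [Finset.mem_Icc] at hl
      have : l - k = 0 := by omega
      rw [this]
      simp
    have h7 : 1 - k = 0 := by omega
    have h8 : ((κ - k : ℕ) : ℤ) = (κ : ℤ) - k := Nat.cast_sub (by omega)
    simp only [h5, h7, h8, Nat.cast_zero, zero_mul, add_zero, zero_add] at h4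
    rw [h4]
    ring
  have hPL : ∀ k, 1 ≤ k → k ≤ L → ∀ i, 1 ≤ PLF a (KG2_mm m L κ x y) k i := by
    intro k hk hkL i
    have h1 := hdiff k hk hkL i
    have h2 := hP1 k hk i
    have h3 : (k : ℤ) ≤ L := by exact_mod_cast hkL
    have h4 : (1 : ℤ) ≤ k := by exact_mod_cast hk
    linarith only [hkL, h1, h2]
  refine ⟨KG2_mm m L κ x y, ⟨hmem, fun i => ?_, fun l hl1 hlκ i => ?_⟩, ?_⟩
  · rw [KG2_mm_at m L κ x y 1 le_rfl (by omega) i, if_pos hL, if_pos rfl, hx]
    have := hcle i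
    omega
  · rcases le_or_gt l L with h | h
    · exact hPL l hl1 h i
    · have h1 := hlin l h.le hlκ.le i
      have h2 := hlin L le_rfl hκ1.le i
      have h3 := hPL L hL le_rfl i
      have h4 : (0 : ℤ) < (κ : ℤ) - l := by
        have : (l : ℤ) < κ := by exact_mod_cast hlκ
        linarith only [hlκ]
      have h5 : (0 : ℤ) < (l : ℤ) - L := by
        have : (L : ℤ) < l := by exact_mod_cast h
        linarith only [h]
      have h6 : ((κ : ℤ) - L) * PLF a (KG2_mm m L κ x y) l i =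
          ((κ : ℤ) - l) * PLF a (KG2_mm m L κ x y) L i +
            ((l : ℤ) - L) * (((n + Θ * (κ * e) * u : ℕ) : ℤ) * (-cw a α i)) := by
        rw [h1, h2]
        ring
      have h7 : (0 : ℤ) ≤ ((l : ℤ) - L) * (((n + Θ * (κ * e) * u : ℕ) : ℤ) * (-cw a α i)) :=
        mul_nonneg h5.le (mul_nonneg (Int.natCast_nonneg _) (hsnn i))
      have h8 : (0 : ℤ) < ((κ : ℤ) - l) * PLF a (KG2_mm m L κ x y) L i :=
        mul_pos h4 (by linarith)
      have h9 : (0 : ℤ) < ((κ : ℤ) - L) * PLF a (KG2_mm m L κ x y) l i := by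
        rw [h6]
        linarith
      exact (mul_pos_iff_of_pos_left (by linarith)).mp h9
  · unfold EW
    have hsub : Finset.Icc 1 L ⊆ Finset.Icc 1 κ := by
      intro l
      simp only [Finset.mem_Icc]
      omega
    rw [← Finset.prod_sdiff hsub]
    have h1 : (∏ l ∈ Finset.Icc 1 L, ∏ i,
        ((PLF a m l i + 2 * (l : ℤ)).toNat + mAt m l i).choose (mAt m l i)) ≤
        ∏ l ∈ Finset.Icc 1 L, ∏ i, ((PLF a (KG2_mm m L κ x y) l i).toNat +
          mAt (KG2_mm m L κ x y) l i).choose (mAt (KG2_mm m L κ x y) l i) := by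
      apply Finset.prod_le_prod'
      intro l hl
      rw [Finset.mem_Icc] at hl
      apply Finset.prod_le_prod'
      intro i _
      apply KG2_choose
      · apply Int.toNat_le_toNat
        have h2 := hdiff l hl.1 hl.2 i
        have h3 : (l : ℤ) ≤ L := by exact_mod_cast hl.2
        linarith
      · rw [KG2_mm_at m L κ x y l hl.1 (by omega) i, if_pos hl.2]
        omega
    refine h1.trans (Nat.le_mul_of_pos_left _ ?_)
    apply Finset.prod_pos
    intro l _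
    apply Finset.prod_pos
    intro i _
    exact Nat.choose_pos (by omega)

end Pool.Agent.H27.KB
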