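import Pool.Agent.H27.KB.W1
import Pool.Agent.H27.KAC.KG3

/-!
KAC ADE, growth part: choice of the window for general quivers.
-/

set_option autoImplicit false

namespace Pool.Agent.H27.KB

open scoped BigOperators
open Pool.Agent.H27.KAC Pool.H88.KA

variable {I : Type} [Fintype I] [DecidableEq I]

theorem window' (a : I → I → ℕ) (α : I →₀ ℕ) (hα : AmpG a α) (v : I → ℕ)
    (hv : ∀ i, cw a α i = 0 → 1 ≤ ∑ j, cart a i j * (v j : ℤ))
    (q : ℕ) (hq : 1 ≤ q) (L0 : ℕ) (hL0 : 1 ≤ L0) :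
    ∃ n0 T : ℕ, ∀ n : ℕ, n0 ≤ n → ∀ (K : ℕ) (m : Fin K → I → ℕ), m ∈ Mset K (n • α) →
      (∀ (k : Fin K) (i : I), 0 ≤ PLF a m ((k : ℕ) + 1) i + ((k : ℤ) + 1) * 2) →
      ∃ L κ n' : ℕ, L0 ≤ L ∧ 2 ≤ κ ∧ 1 ≤ n' ∧ n' ≤ n + n / q + T ∧
        ∃ m' : Fin κ → I → ℕ, Adm a (n' • α) m' ∧
          (∏ l ∈ Finset.Icc 1 L, ∏ i,
            ((PLF a m l i + 2 * (l : ℤ)).toNat + mAt m l i).choose (mAt m l i)) ≤ EW a m' := by
  classical
  obtain ⟨A1, hA1⟩ : ∃ A1 : ℕ, ∀ i, ∑ j, |cart a i j| ≤ (A1 : ℤ) := by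
    refine ⟨(∑ i, ∑ j, |cart a i j|).toNat, fun i => ?_⟩
    have h1 : ∑ j, |cart a i j| ≤ ∑ i, ∑ j, |cart a i j| :=
      Finset.single_le_sum (f := fun i => ∑ j, |cart a i j|)
        (fun i _ => Finset.sum_nonneg fun j _ => abs_nonneg _) (Finset.mem_univ i)
    exact h1.trans (Int.self_le_toNat _)
  obtain ⟨Θ, hΘ0, hΘ2, hΘ⟩ : ∃ Θ : ℕ, 2 ≤ Θ ∧ (∀ i, 2 * v i + 1 ≤ Θ) ∧
      ∀ i, 2 * ∑ j, a i j * v j + 1 ≤ Θ := by
    refine ⟨2 * (∑ i, ∑ j, a i j * v j) + 2 * (∑ i, v i) + 2, by omega, fun i => ?_, fun i => ?_⟩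
    · have h1 : v i ≤ ∑ i, v i :=
        Finset.single_le_sum (f := v) (fun _ _ => Nat.zero_le _) (Finset.mem_univ i)
      omega
    · have h1 : ∑ j, a i j * v j ≤ ∑ i, ∑ j, a i j * v j :=
        Finset.single_le_sum (f := fun i => ∑ j, a i j * v j) (fun _ _ => Nat.zero_le _)
          (Finset.mem_univ i)
      omega
  set S := ∑ i, α i with hS
  set c := 2 * q * Θ with hc
  set Λ := 3 * c * A1 * S + 2 with hΛ
  set Lr : ℕ → ℕ := fun r => L0 * Λ ^ r with hLr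
  set M := Lr Λ with hM
  have hΛ2 : 2 ≤ Λ := by rw [hΛ]; omega
  have hΛ0 : 0 < Λ := by omega
  have hsucc : ∀ r, Lr (r + 1) = Λ * Lr r := by
    intro r
    simp only [hLr]
    ring
  have hmono : ∀ r, Lr r ≤ Lr (r + 1) := by
    intro r
    rw [hsucc]
    exact Nat.le_mul_of_pos_left _ hΛ0
  have hLr1 : ∀ r, L0 ≤ Lr r := by
    intro r
    simp only [hLr]
    exact Nat.le_mul_of_pos_right _ (Nat.pow_pos hΛ0)
  have hMr : ∀ r, r < Λ → Lr (r + 1) ∣ M := by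
    intro r hr
    simp only [hM, hLr]
    exact Nat.mul_dvd_mul_left _ (pow_dvd_pow _ (by omega))
  have hM1 : 1 ≤ M := hL0.trans (hLr1 Λ)
  have hc0 : 0 < c := by
    rw [hc]
    exact Nat.mul_pos (by omega) (by omega)
  refine ⟨c * (A1 * M + 4 * M + 1), Θ * M, ?_⟩
  intro n hn K m hm hP
  -- the sums of the parts
  have htot : ∀ j, ∑ l ∈ Finset.Icc 1 K, l * mAt m l j = n * α j := by
    intro j
    rw [KG3_total]
    unfold Mset at hm
    rw [Finset.mem_filter] at hm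
    rw [hm.2 j]
    rfl
  -- pigeonhole
  let V : ℕ → I → ℕ := fun r j => ∑ l ∈ Finset.Icc 1 K,
    (if Lr r < l ∧ l ≤ Lr (r + 1) then l * mAt m l j else 0)
  have hV : ∑ r ∈ Finset.range Λ, ∑ j, V r j ≤ n * S := by
    rw [Finset.sum_comm, hS, Finset.mul_sum]
    refine Finset.sum_le_sum fun j _ => ?_
    rw [← htot j]
    show ∑ r ∈ Finset.range Λ, ∑ l ∈ Finset.Icc 1 K,
      (if Lr r < l ∧ l ≤ Lr (r + 1) then l * mAt m l j else 0) ≤ _
    rw [Finset.sum_comm]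
    refine Finset.sum_le_sum fun l _ => ?_
    refine (KG3_ind Lr hmono l (l * mAt m l j) Λ).trans ?_
    split_ifs <;> omega
  obtain ⟨r, hr, hVr⟩ : ∃ r < Λ, Λ * ∑ j, V r j ≤ n * S := by
    by_contra hcon
    push Not at hcon
    have h1 : ∑ _r ∈ Finset.range Λ, n * S < ∑ r ∈ Finset.range Λ, Λ * ∑ j, V r j := by
      apply Finset.sum_lt_sum_of_nonempty
      · exact Finset.nonempty_range_iff.2 (by omega)
      · intro r hr
        exact hcon r (Finset.mem_range.1 hr)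
    rw [Finset.sum_const, Finset.card_range, smul_eq_mul, ← Finset.mul_sum] at h1
    have h2 := Nat.mul_le_mul_left Λ hV
    omega
  set L := Lr r with hL
  set κ := Lr (r + 1) with hκ
  have hκL : κ = Λ * L := hsucc r
  have hL1 : 1 ≤ L := hL0.trans (hLr1 r)
  have hκM : κ ∣ M := hMr r hr
  have hκM' : κ ≤ M := Nat.le_of_dvd hM1 hκM
  have hLκ : 2 * L ≤ κ := by
    rw [hκL]
    exact Nat.mul_le_mul_right _ hΛ2
  have hκ0 : 0 < κ := by omega
  have hVj : ∀ j, Λ * V r j ≤ n * S := by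
    intro j
    refine le_trans (Nat.mul_le_mul_left _ ?_) hVr
    exact Finset.single_le_sum (f := fun j => V r j) (fun _ _ => Nat.zero_le _) (Finset.mem_univ j)
  have hαS : ∀ j, n * α j ≤ n * S := fun j => Nat.mul_le_mul_left _
    (Finset.single_le_sum (f := fun j => α j) (fun _ _ => Nat.zero_le _) (Finset.mem_univ j))
  have hsub : Finset.Icc (L + 1) K ⊆ Finset.Icc 1 K := by
    intro l hl
    rw [Finset.mem_Icc] at hl ⊢
    omega
  have hw : ∀ j, ∑ l ∈ Finset.Icc (L + 1) K, l * mAt m l j ≤ n * S := by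
    intro j
    refine le_trans ?_ (hαS j)
    rw [← htot j]
    exact Finset.sum_le_sum_of_subset hsub
  -- Λ L (w / κ) ≤ n S
  have hY1 : ∀ j, Λ * (L * ((∑ l ∈ Finset.Icc (L + 1) K, l * mAt m l j) / κ)) ≤ n * S := by
    intro j
    refine le_trans ?_ (hw j)
    rw [← mul_assoc, ← hκL]
    exact Nat.mul_div_le _ _
  -- Λ L b ≤ 2 n S
  have hY2 : ∀ j, Λ * (L * ∑ l ∈ Finset.Icc (L + 1) K, mAt m l j) ≤ 2 * (n * S) := by
    intro j
    have h1 : Λ * (L * ∑ l ∈ Finset.Icc (L + 1) K, mAt m l j) ≤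
        ∑ l ∈ Finset.Icc 1 K, (Λ * (if L < l ∧ l ≤ κ then l * mAt m l j else 0) +
          l * mAt m l j) := by
      rw [Finset.mul_sum, Finset.mul_sum]
      refine le_trans ?_ (Finset.sum_le_sum_of_subset hsub)
      refine Finset.sum_le_sum fun l hl => ?_
      rw [Finset.mem_Icc] at hl
      by_cases h2 : l ≤ κ
      · rw [if_pos ⟨by omega, h2⟩]
        have h3 : Λ * (L * mAt m l j) ≤ Λ * (l * mAt m l j) :=
          Nat.mul_le_mul_left _ (Nat.mul_le_mul_right _ (by omega))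
        omega
      · rw [if_neg (fun hc => h2 hc.2), ← mul_assoc, ← hκL]
        have h3 : κ * mAt m l j ≤ l * mAt m l j := Nat.mul_le_mul_right _ (by omega)
        omega
    rw [Finset.sum_add_distrib, ← Finset.mul_sum, htot j] at h1
    have h2 := hVj j
    have h3 := hαS j
    have h4 : Λ * (∑ l ∈ Finset.Icc 1 K, (if L < l ∧ l ≤ κ then l * mAt m l j else 0)) ≤ n * S :=
      h2
    omega
  set u := n / (q * Θ * M) + 1 with hu
  have hu1 : 1 ≤ u := Nat.le_add_left 1 _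
  have hqΘM : 0 < q * Θ * M := Nat.mul_pos (Nat.mul_pos (by omega) (by omega)) (by omega)
  have hMu : 2 * n ≤ c * (M * u) := by
    have h1 : n < q * Θ * M * u := by
      rw [hu, mul_add, mul_one]
      have := Nat.div_add_mod n (q * Θ * M)
      have h2 := Nat.mod_lt n hqΘM
      omega
    have h2 : c * (M * u) = 2 * (q * Θ * M * u) := by
      rw [hc]; ring
    omega
  have hE : ∀ j, A1 * (κ + L * ((∑ l ∈ Finset.Icc (L + 1) K, l * mAt m l j) / κ) +
        L * ∑ l ∈ Finset.Icc (L + 1) K, mAt m l j) + 4 * L + 1 ≤ M * u := by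
    intro j
    set y1 := L * ((∑ l ∈ Finset.Icc (L + 1) K, l * mAt m l j) / κ) with hy1
    set y2 := L * ∑ l ∈ Finset.Icc (L + 1) K, mAt m l j with hy2
    have h1 : Λ * y1 ≤ n * S := hY1 j
    have h2 : Λ * y2 ≤ 2 * (n * S) := hY2 j
    have h3 : c * A1 * (y1 + y2) ≤ n := by
      have h4 : (c * A1 * (y1 + y2)) * Λ ≤ n * Λ := by
        calc (c * A1 * (y1 + y2)) * Λ = c * A1 * (Λ * y1 + Λ * y2) := by ring
          _ ≤ c * A1 * (n * S + 2 * (n * S)) := Nat.mul_le_mul_left _ (by omega)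
          _ = n * (3 * c * A1 * S) := by ring
          _ ≤ n * Λ := Nat.mul_le_mul_left _ (by rw [hΛ]; omega)
      exact Nat.le_of_mul_le_mul_right h4 hΛ0
    have h5 : c * (A1 * κ + 4 * L + 1) ≤ n := by
      refine le_trans (Nat.mul_le_mul_left _ ?_) hn
      have h6 : A1 * κ ≤ A1 * M := Nat.mul_le_mul_left _ hκM'
      omega
    have h6 : c * (A1 * (κ + y1 + y2) + 4 * L + 1) ≤ c * (M * u) := by
      calc c * (A1 * (κ + y1 + y2) + 4 * L + 1) =
            c * (A1 * κ + 4 * L + 1) + c * A1 * (y1 + y2) := by ring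
        _ ≤ c * (M * u) := by omega
    exact Nat.le_of_mul_le_mul_left h6 hc0
  obtain ⟨m', hm1, hm2⟩ := window_one' a α hα v hv n K m hm hP A1 hA1 Θ hΘ2 hΘ L κ M u hL1 hLκ hκM
    hM1 hu1 hE
  refine ⟨L, κ, n + Θ * M * u, hLr1 r, by omega, ?_, ?_, m', hm1, hm2⟩
  · have : 0 < Θ * M * u := Nat.mul_pos (Nat.mul_pos (by omega) hM1) hu1
    omega
  · have h1 : Θ * M * (n / (q * Θ * M)) ≤ n / q := by
      rw [Nat.le_div_iff_mul_le (by omega)]
      calc Θ * M * (n / (q * Θ * M)) * q = q * Θ * M * (n / (q * Θ * M)) := by ring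
        _ ≤ n := Nat.mul_div_le _ _
    have h2 : Θ * M * u = Θ * M * (n / (q * Θ * M)) + Θ * M := by
      rw [hu]; ring
    omega

end Pool.Agent.H27.KB
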